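import Pool.Agent.Helper89.KB.Iso

/-!
# Banach's theorem: the coordinate functionals of a basis are continuous
-/

set_option autoImplicit false

open Filter Topology

namespace Pool.Agent.Helper89.KB

noncomputable section

variable {𝕜 : Type*} [RCLike 𝕜]
variable {F : Type*} [NormedAddCommGroup F] [NormedSpace 𝕜 F]

/-- `f` is a Schauder basis of `F`: every vector has a unique expansion. -/
def IsBasis (𝕜 : Type*) [RCLike 𝕜] {F : Type*} [NormedAddCommGroup F] [NormedSpace 𝕜 F]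
    (f : ℕ → F) : Prop :=
  ∀ x : F, ∃! a : ℕ → 𝕜, Tendsto (fun n => ∑ i ∈ Finset.range n, a i • f i) atTop (𝓝 x)

theorem isBasis_of_basis (b : SchauderBasis 𝕜 F) : IsBasis 𝕜 (fun i => b i) := by
  intro x
  refine ⟨fun i => b.coord i x, tendsto_expansion b x, fun a ha => funext fun j => ?_⟩
  have h1 := ((b.coord j).continuous.tendsto x).comp ha
  refine tendsto_nhds_unique (Filter.Tendsto.congr' ?_ tendsto_const_nhds) h1
  filter_upwards [eventually_gt_atTop j] with n hn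
  simp only [Function.comp_apply, map_sum, map_smul, ortho', smul_eq_mul, mul_ite, mul_one,
    mul_zero]
  rw [Finset.sum_ite_eq, if_pos (Finset.mem_range.2 hn)]

section

variable {f : ℕ → F} (hf : IsBasis 𝕜 f)

include hf

theorem IsBasis.ne_zero (n : ℕ) : f n ≠ 0 := by
  intro h
  obtain ⟨a, ha, hu⟩ := hf 0
  have h1 := hu (fun _ => 0) (by simp)
  have h2 := hu (fun i => if i = n then 1 else 0) (by
    refine tendsto_const_nhds.congr fun N => ?_
    rw [Finset.sum_eq_zero]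
    intro i _
    dsimp only
    split_ifs with hi
    · rw [hi, h, smul_zero]
    · rw [zero_smul])
  have h3 := congrFun (h1.trans h2.symm) n
  simp at h3

/-- coordinates -/
def IsBasis.co (x : F) : ℕ → 𝕜 := (hf x).choose

theorem IsBasis.co_tendsto (x : F) :
    Tendsto (fun n => ∑ i ∈ Finset.range n, hf.co x i • f i) atTop (𝓝 x) := (hf x).choose_spec.1

theorem IsBasis.co_unique {x : F} {a : ℕ → 𝕜}
    (ha : Tendsto (fun n => ∑ i ∈ Finset.range n, a i • f i) atTop (𝓝 x)) : hf.co x = a :=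
  ((hf x).choose_spec.2 a ha).symm

theorem IsBasis.co_add (x y : F) : hf.co (x + y) = hf.co x + hf.co y := by
  refine hf.co_unique (((hf.co_tendsto x).add (hf.co_tendsto y)).congr fun n => ?_)
  simp [add_smul, Finset.sum_add_distrib]

theorem IsBasis.co_smul (c : 𝕜) (x : F) : hf.co (c • x) = c • hf.co x := by
  refine hf.co_unique (((hf.co_tendsto x).const_smul c).congr fun n => ?_)
  simp [Finset.smul_sum, mul_smul]

theorem IsBasis.co_basis (j : ℕ) : hf.co (f j) = fun i => if i = j then 1 else 0 := by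
  refine hf.co_unique (tendsto_const_nhds.congr' ?_)
  filter_upwards [eventually_gt_atTop j] with n hn
  simp only [ite_smul, one_smul, zero_smul]
  rw [Finset.sum_ite_eq', if_pos (Finset.mem_range.2 hn)]

end

/-- The space of sequences of partial sums. -/
def PS (f : ℕ → F) : Submodule 𝕜 (lp (fun _ : ℕ => F) ⊤) where
  carrier := {s | s 0 = 0 ∧ (∀ n, ∃ c : 𝕜, s (n + 1) - s n = c • f n) ∧
    CauchySeq (fun n => s n)}
  zero_mem' := by
    refine ⟨rfl, fun n => ⟨0, by simp⟩, ?_⟩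
    simpa using! cauchySeq_const (0 : F)
  add_mem' := by
    rintro s t ⟨hs1, hs2, hs3⟩ ⟨ht1, ht2, ht3⟩
    refine ⟨?_, fun n => ?_, ?_⟩
    · rw [lp.coeFn_add, Pi.add_apply, hs1, ht1, add_zero]
    · obtain ⟨c, hc⟩ := hs2 n
      obtain ⟨d, hd⟩ := ht2 n
      refine ⟨c + d, ?_⟩
      rw [lp.coeFn_add, Pi.add_apply, Pi.add_apply, add_smul, ← hc, ← hd]
      abel
    · exact hs3.add ht3
  smul_mem' := by
    rintro c s ⟨hs1, hs2, hs3⟩
    refine ⟨?_, fun n => ?_, ?_⟩
    · rw [lp.coeFn_smul, Pi.smul_apply, hs1, smul_zero]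
    · obtain ⟨d, hd⟩ := hs2 n
      refine ⟨c * d, ?_⟩
      rw [lp.coeFn_smul, Pi.smul_apply, Pi.smul_apply, mul_smul, ← hd, smul_sub]
    · exact (uniformContinuous_const_smul c).comp_cauchySeq hs3

theorem isClosed_PS (f : ℕ → F) : IsClosed (PS (𝕜 := 𝕜) f : Set (lp (fun _ : ℕ => F) ⊤)) := by
  have hev : ∀ n : ℕ, Continuous fun s : lp (fun _ : ℕ => F) ⊤ => (s n : F) := fun n =>
    (lp.evalCLM 𝕜 (fun _ : ℕ => F) ⊤ n).continuous
  have h1 : IsClosed {s : lp (fun _ : ℕ => F) ⊤ | s 0 = 0} :=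
    isClosed_eq (hev 0) continuous_const
  have h2 : ∀ n, IsClosed {s : lp (fun _ : ℕ => F) ⊤ | ∃ c : 𝕜, s (n + 1) - s n = c • f n} := by
    intro n
    have h3 : {s : lp (fun _ : ℕ => F) ⊤ | ∃ c : 𝕜, s (n + 1) - s n = c • f n}
        = (fun s : lp (fun _ : ℕ => F) ⊤ => (s (n + 1) : F) - s n) ⁻¹'
          (Submodule.span 𝕜 {f n} : Set F) := by
      ext s
      simp only [Set.mem_ofPred_eq, Set.mem_preimage, SetLike.mem_coe,
        Submodule.mem_span_singleton]
      constructor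
      · rintro ⟨c, hc⟩
        exact ⟨c, hc.symm⟩
      · rintro ⟨c, hc⟩
        exact ⟨c, hc.symm⟩
    rw [h3]
    exact (Submodule.closed_of_finiteDimensional _).preimage ((hev _).sub (hev _))
  have h4 : IsClosed {s : lp (fun _ : ℕ => F) ⊤ | CauchySeq (fun n => s n)} := by
    rw [← isSeqClosed_iff_isClosed]
    intro s t hs ht
    rw [Metric.tendsto_atTop] at ht
    change CauchySeq (fun n => t n)
    rw [Metric.cauchySeq_iff]
    intro ε hε
    obtain ⟨k, hk⟩ := ht (ε / 3) (by positivity)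
    have h5 := hk k le_rfl
    rw [dist_eq_norm] at h5
    have h6 : ∀ n, ‖s k n - t n‖ < ε / 3 := fun n =>
      lt_of_le_of_lt (lp.norm_apply_le_norm (by simp) (s k - t) n) h5
    obtain ⟨N, hN⟩ := Metric.cauchySeq_iff.1 (hs k) (ε / 3) (by positivity)
    refine ⟨N, fun m hm n hn => ?_⟩
    have h7 := hN m hm n hn
    rw [dist_eq_norm] at h7 ⊢
    have e1 : t m - t n = -(s k m - t m) + (s k m - s k n) + (s k n - t n) := by abel
    rw [e1]
    calc _ ≤ ‖-(s k m - t m) + (s k m - s k n)‖ + ‖s k n - t n‖ := norm_add_le _ _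
      _ ≤ (‖-(s k m - t m)‖ + ‖s k m - s k n‖) + ‖s k n - t n‖ := by
          gcongr
          exact norm_add_le _ _
      _ < (ε / 3 + ε / 3) + ε / 3 := by
          rw [norm_neg]
          exact add_lt_add (add_lt_add (h6 m) h7) (h6 n)
      _ = ε := by ring
  have h5 : (PS (𝕜 := 𝕜) f : Set (lp (fun _ : ℕ => F) ⊤)) = {s | s 0 = 0} ∩
      ((⋂ n, {s | ∃ c : 𝕜, s (n + 1) - s n = c • f n}) ∩ {s | CauchySeq (fun n => s n)}) := by
    ext s
    simp only [PS, Submodule.coe_set_mk, AddSubmonoid.coe_set_mk, AddSubsemigroup.coe_set_mk,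
      Set.mem_inter_iff, Set.mem_iInter, Set.mem_ofPred_eq]
  rw [h5]
  exact h1.inter ((isClosed_iInter h2).inter h4)

theorem PS_cauchy {f : ℕ → F} (s : PS (𝕜 := 𝕜) f) :
    CauchySeq (fun n => (s : lp (fun _ : ℕ => F) ⊤) n) := s.2.2.2

theorem PS_eq_sum {f : ℕ → F} (s : PS (𝕜 := 𝕜) f) : ∃ c : ℕ → 𝕜, ∀ n,
    (s : lp (fun _ : ℕ => F) ⊤) n = ∑ i ∈ Finset.range n, c i • f i := by
  choose c hc using s.2.2.1
  refine ⟨c, fun n => ?_⟩
  induction n with
  | zero => simpa using s.2.1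
  | succ n ih => rw [Finset.sum_range_succ, ← ih, ← hc n]; abel

/-- The sequence of partial sums of a vector. -/
theorem IsBasis.exists_PS {f : ℕ → F} (hf : IsBasis 𝕜 f) (x : F) : ∃ s : PS (𝕜 := 𝕜) f,
    (∀ n, (s : lp (fun _ : ℕ => F) ⊤) n = ∑ i ∈ Finset.range n, hf.co x i • f i) := by
  have h1 := hf.co_tendsto x
  have hb : Memℓp (fun n => ∑ i ∈ Finset.range n, hf.co x i • f i) ⊤ := by
    refine memℓp_infty ?_
    obtain ⟨M, hM⟩ := isBounded_iff_forall_norm_le.mp (Metric.isBounded_range_of_tendsto _ h1)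
    exact ⟨M, by rintro _ ⟨n, rfl⟩; exact hM _ ⟨n, rfl⟩⟩
  refine ⟨⟨⟨_, hb⟩, ?_, fun n => ⟨hf.co x n, ?_⟩, ?_⟩, fun n => rfl⟩
  · simp
  · change ∑ i ∈ Finset.range (n + 1), hf.co x i • f i - ∑ i ∈ Finset.range n, hf.co x i • f i = _
    rw [Finset.sum_range_succ]
    abel
  · exact h1.cauchySeq

variable [CompleteSpace F]

/-- limit of the partial sums -/
def limPS (f : ℕ → F) : PS (𝕜 := 𝕜) f →L[𝕜] F :=
  LinearMap.mkContinuous
    { toFun := fun s => limUnder atTop fun n => (s : lp (fun _ : ℕ => F) ⊤) n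
      map_add' := fun s t => by
        have hs := (PS_cauchy s).tendsto_limUnder
        have ht := (PS_cauchy t).tendsto_limUnder
        exact (hs.add ht).limUnder_eq
      map_smul' := fun c s => by
        have hs := (PS_cauchy s).tendsto_limUnder
        exact (hs.const_smul c).limUnder_eq }
    1 fun s => by
      have hs := (PS_cauchy s).tendsto_limUnder
      rw [one_mul]
      refine le_of_tendsto hs.norm (Eventually.of_forall fun n => ?_)
      exact lp.norm_apply_le_norm (by simp) (s : lp (fun _ : ℕ => F) ⊤) n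

theorem limPS_tendsto (f : ℕ → F) (s : PS (𝕜 := 𝕜) f) :
    Tendsto (fun n => (s : lp (fun _ : ℕ => F) ⊤) n) atTop (𝓝 (limPS f s)) :=
  (PS_cauchy s).tendsto_limUnder

variable {f : ℕ → F}

theorem IsBasis.exists_bound (hf : IsBasis 𝕜 f) : ∃ C : ℝ, 0 < C ∧ ∀ x n,
    ‖∑ i ∈ Finset.range n, hf.co x i • f i‖ ≤ C * ‖x‖ := by
  have : CompleteSpace (PS (𝕜 := 𝕜) f) := (isClosed_PS f).completeSpace_coe
  have hsurj : Function.Surjective (limPS (𝕜 := 𝕜) f) := by
    intro x
    obtain ⟨s, hs⟩ := hf.exists_PS x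
    refine ⟨s, tendsto_nhds_unique (limPS_tendsto f s) ?_⟩
    simp only [hs]
    exact hf.co_tendsto x
  obtain ⟨C, hC, h⟩ := (limPS (𝕜 := 𝕜) f).exists_preimage_norm_le hsurj
  refine ⟨C, hC, fun x n => ?_⟩
  obtain ⟨s, hs1, hs2⟩ := h x
  obtain ⟨c, hc⟩ := PS_eq_sum s
  have h1 := limPS_tendsto f s
  rw [hs1] at h1
  simp only [hc] at h1
  have h2 := hf.co_unique h1
  rw [h2, ← hc]
  exact (lp.norm_apply_le_norm (by simp) (s : lp (fun _ : ℕ => F) ⊤) n).trans hs2

/-- Banach's theorem. -/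
theorem IsBasis.exists_basis (hf : IsBasis 𝕜 f) : ∃ b : SchauderBasis 𝕜 F, ∀ i, b i = f i := by
  obtain ⟨C, hC, h⟩ := hf.exists_bound
  have hbound : ∀ (j : ℕ) (x : F), ‖hf.co x j‖ ≤ (2 * C / ‖f j‖) * ‖x‖ := by
    intro j x
    have hj : 0 < ‖f j‖ := norm_pos_iff.2 (hf.ne_zero j)
    rw [div_mul_eq_mul_div, le_div_iff₀ hj, ← norm_smul]
    have e1 : hf.co x j • f j = ∑ i ∈ Finset.range (j + 1), hf.co x i • f i
        - ∑ i ∈ Finset.range j, hf.co x i • f i := by
      rw [Finset.sum_range_succ]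
      abel
    rw [e1]
    calc _ ≤ _ := norm_sub_le _ _
      _ ≤ C * ‖x‖ + C * ‖x‖ := add_le_add (h x _) (h x _)
      _ = 2 * C * ‖x‖ := by ring
  let co : ℕ → F →L[𝕜] 𝕜 := fun j => LinearMap.mkContinuous
    { toFun := fun x => hf.co x j
      map_add' := fun x y => by rw [hf.co_add]; rfl
      map_smul' := fun c x => by rw [hf.co_smul]; rfl } (2 * C / ‖f j‖) (hbound j)
  exact ⟨mkBasis f co (fun i j => by
      change hf.co (f j) i = _
      rw [hf.co_basis]) (fun x => hf.co_tendsto x), fun i => rfl⟩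

end

end Pool.Agent.Helper89.KB
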