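import Pool.Agent.Helper89.KB.TreeKernel

/-!
# Existence of a tree surjection
-/

set_option autoImplicit false

open Filter Topology

namespace Pool.Agent.Helper89.KB

noncomputable section

variable {𝕜 : Type*} [RCLike 𝕜]

/-- A criterion for surjectivity: the image of the unit ball is `ρ/2`-dense in the `ρ`-ball. -/
theorem surjective_of_dense {X F : Type*} [NormedAddCommGroup X] [NormedSpace 𝕜 X]
    [CompleteSpace X] [NormedAddCommGroup F] [NormedSpace 𝕜 F] (u : X →L[𝕜] F) {ρ : ℝ}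
    (hρ : 0 < ρ) (h : ∀ y : F, ‖y‖ ≤ ρ → ∃ x : X, ‖x‖ ≤ 1 ∧ ‖y - u x‖ ≤ ρ / 2) :
    Function.Surjective u := by
  have h1 : ∀ y : F, ∃ x : X, ‖x‖ ≤ ‖y‖ / ρ ∧ ‖y - u x‖ ≤ ‖y‖ / 2 := by
    intro y
    by_cases hy : y = 0
    · exact ⟨0, by simp [hy], by simp [hy]⟩
    have hy' : 0 < ‖y‖ := norm_pos_iff.2 hy
    set c : ℝ := ρ / ‖y‖ with hc
    have hc0 : 0 < c := div_pos hρ hy'
    obtain ⟨x, hx1, hx2⟩ := h ((c : 𝕜) • y) (by
      rw [norm_smul, RCLike.norm_ofReal, abs_of_pos hc0, hc, div_mul_cancel₀ _ hy'.ne'])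
    refine ⟨((c⁻¹ : ℝ) : 𝕜) • x, ?_, ?_⟩
    · rw [norm_smul, RCLike.norm_ofReal, abs_of_pos (inv_pos.2 hc0), hc, inv_div]
      calc ‖y‖ / ρ * ‖x‖ ≤ ‖y‖ / ρ * 1 :=
            mul_le_mul_of_nonneg_left hx1 (div_nonneg hy'.le hρ.le)
        _ = ‖y‖ / ρ := mul_one _
    · have e1 : y - u (((c⁻¹ : ℝ) : 𝕜) • x) = ((c⁻¹ : ℝ) : 𝕜) • ((c : 𝕜) • y - u x) := by
        rw [map_smul, smul_sub, smul_smul, ← RCLike.ofReal_mul, inv_mul_cancel₀ hc0.ne']
        simp
      rw [e1, norm_smul, RCLike.norm_ofReal, abs_of_pos (inv_pos.2 hc0), hc, inv_div]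
      calc ‖y‖ / ρ * ‖(c : 𝕜) • y - u x‖ ≤ ‖y‖ / ρ * (ρ / 2) :=
            mul_le_mul_of_nonneg_left hx2 (div_nonneg hy'.le hρ.le)
        _ = ‖y‖ / 2 := by field_simp
  choose φ hφ1 hφ2 using h1
  intro y
  let Y : ℕ → F := fun k => Nat.rec y (fun _ z => z - u (φ z)) k
  have hY : ∀ k, Y (k + 1) = Y k - u (φ (Y k)) := fun k => rfl
  have hn : ∀ k, ‖Y k‖ ≤ ‖y‖ * (1 / 2) ^ k := by
    intro k
    induction k with
    | zero => simp [Y]
    | succ k ih =>
      rw [hY, pow_succ]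
      calc _ ≤ ‖Y k‖ / 2 := hφ2 _
        _ ≤ (‖y‖ * (1 / 2) ^ k) / 2 := by gcongr
        _ = _ := by ring
  have hs : Summable fun k => φ (Y k) := by
    refine Summable.of_norm_bounded (g := fun k => ‖y‖ / ρ * (1 / 2) ^ k) ?_ ?_
    · exact (summable_geometric_of_lt_one (by norm_num) (by norm_num)).mul_left _
    · intro k
      calc ‖φ (Y k)‖ ≤ ‖Y k‖ / ρ := hφ1 _
        _ ≤ (‖y‖ * (1 / 2) ^ k) / ρ := by gcongr; exact hn k
        _ = _ := by ring
  refine ⟨∑' k, φ (Y k), ?_⟩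
  have h2 := (hs.hasSum.mapL u).tendsto_sum_nat
  have h3 : ∀ n, ∑ k ∈ Finset.range n, u (φ (Y k)) = y - Y n := by
    intro n
    induction n with
    | zero => simp [Y]
    | succ n ih => rw [Finset.sum_range_succ, ih, hY]; abel
  have h4 : Tendsto Y atTop (𝓝 0) := by
    refine squeeze_zero_norm hn ?_
    have := (tendsto_pow_atTop_nhds_zero_of_lt_one (r := (1 / 2 : ℝ)) (by norm_num)
      (by norm_num)).const_mul ‖y‖
    rwa [mul_zero] at this
  have h5 : Tendsto (fun n => y - Y n) atTop (𝓝 y) := by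
    have := h4.const_sub y
    rwa [sub_zero] at this
  exact tendsto_nhds_unique h2 (h5.congr fun n => (h3 n).symm)

/-- enumeration of a finite set -/
def enumF {F : Type*} [Zero F] (s : Finset F) (k : ℕ) : F :=
  if h : k < s.card then (s.equivFin.symm ⟨k, h⟩ : F) else 0

theorem enumF_mem {F : Type*} [Zero F] (s : Finset F) {k : ℕ} (h : k < s.card) : enumF s k ∈ s := by
  rw [enumF, dif_pos h]
  exact (s.equivFin.symm ⟨k, h⟩).2

theorem exists_enumF {F : Type*} [Zero F] (s : Finset F) {y : F} (h : y ∈ s) :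
    ∃ k < s.card, enumF s k = y := by
  refine ⟨s.equivFin ⟨y, h⟩, (s.equivFin ⟨y, h⟩).2, ?_⟩
  rw [enumF, dif_pos (s.equivFin ⟨y, h⟩).2]
  simp

variable {F : Type*} [NormedAddCommGroup F] [NormedSpace 𝕜 F]

/-- The finite sets of tree vectors. -/
def SS (b : SchauderBasis 𝕜 F) (G : ℕ → Finset 𝕜) : ℕ → Finset F
  | 0 => {0}
  | n + 1 => by
    classical
    exact ((SS b G n ×ˢ G n).image fun p => p.1 + p.2 • b n).filter fun y => ‖y‖ ≤ 1

variable {b : SchauderBasis 𝕜 F} {G : ℕ → Finset 𝕜}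

theorem mem_SS_succ {n : ℕ} {y : F} :
    y ∈ SS b G (n + 1) ↔ ∃ y' ∈ SS b G n, ∃ g ∈ G n, y' + g • b n = y ∧ ‖y‖ ≤ 1 := by
  classical
  rw [SS, Finset.mem_filter, Finset.mem_image]
  constructor
  · rintro ⟨⟨p, hp, rfl⟩, h⟩
    rw [Finset.mem_product] at hp
    exact ⟨p.1, hp.1, p.2, hp.2, rfl, h⟩
  · rintro ⟨y', hy', g, hg, rfl, h⟩
    exact ⟨⟨(y', g), Finset.mem_product.2 ⟨hy', hg⟩, rfl⟩, h⟩

theorem SS_norm {n : ℕ} {y : F} (h : y ∈ SS b G n) : ‖y‖ ≤ 1 := by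
  cases n with
  | zero =>
    rw [SS, Finset.mem_singleton] at h
    simp [h]
  | succ n =>
    obtain ⟨_, _, _, _, _, h⟩ := mem_SS_succ.1 h
    exact h

theorem proj_b (n i : ℕ) : b.proj n (b i) = if i < n then b i else 0 :=
  SchauderBasis.proj_apply_basis_mem b n i

theorem SS_proj {n m : ℕ} (hnm : n ≤ m) {y : F} (h : y ∈ SS b G n) : b.proj m y = y := by
  induction n generalizing y with
  | zero =>
    rw [SS, Finset.mem_singleton] at h
    simp [h]
  | succ n ih =>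
    obtain ⟨y', hy', g, _, rfl, _⟩ := mem_SS_succ.1 h
    rw [map_add, map_smul, proj_b, if_pos (by omega), ih (by omega) hy']

theorem SS_par {n : ℕ} {y : F} (h : y ∈ SS b G (n + 1)) : b.proj n y ∈ SS b G n := by
  obtain ⟨y', hy', g, _, rfl, _⟩ := mem_SS_succ.1 h
  rw [map_add, map_smul, proj_b, if_neg (by omega), smul_zero, add_zero, SS_proj le_rfl hy']
  exact hy'

theorem SS_zero (hG : ∀ n, (0 : 𝕜) ∈ G n) (n : ℕ) : (0 : F) ∈ SS b G n := by
  induction n with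
  | zero => simp [SS]
  | succ n ih => exact mem_SS_succ.2 ⟨0, ih, 0, hG n, by simp, by simp⟩

theorem SS_sum {c : ℕ → 𝕜} (hc : ∀ i, c i ∈ G i)
    (h : ∀ k, ‖∑ i ∈ Finset.range k, c i • b i‖ ≤ 1) (n : ℕ) :
    ∑ i ∈ Finset.range n, c i • b i ∈ SS b G n := by
  induction n with
  | zero => simp [SS]
  | succ n ih =>
    refine mem_SS_succ.2 ⟨_, ih, c n, hc n, (Finset.sum_range_succ _ _).symm, h (n + 1)⟩

/-- The forest of tree vectors. -/
theorem exists_VForest (b : SchauderBasis 𝕜 F) (G : ℕ → Finset 𝕜) (hG : ∀ n, (0 : 𝕜) ∈ G n) :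
    ∃ V : VForest b, ∀ n, ∀ y ∈ SS b G (n + 1), ∃ j, V.x j = y := by
  classical
  set N : ℕ → ℕ := fun n => ∑ i ∈ Finset.range n, (SS b G (i + 1)).card with hN
  have hNs : ∀ n, N (n + 1) = N n + (SS b G (n + 1)).card := fun n => Finset.sum_range_succ _ _
  have hcard : ∀ n, 0 < (SS b G (n + 1)).card := fun n => Finset.card_pos.2 ⟨0, SS_zero hG _⟩
  have hlt : ∀ n, N n < N (n + 1) := fun n => by rw [hNs]; have := hcard n; omega
  have hmono : StrictMono N := strictMono_nat_of_lt_succ hlt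
  have hex : ∀ j, ∃ n, j < N (n + 1) := fun j =>
    ⟨j, lt_of_lt_of_le (Nat.lt_succ_self j) (hmono.id_le (j + 1))⟩
  set lev : ℕ → ℕ := fun j => Nat.find (hex j) with hlev
  have hlev2 : ∀ j, j < N (lev j + 1) := fun j => Nat.find_spec (hex j)
  have hlev1 : ∀ j, N (lev j) ≤ j := by
    intro j
    rcases Nat.eq_zero_or_pos (lev j) with h | h
    · rw [h]; simp [hN]
    · obtain ⟨k, hk⟩ : ∃ k, lev j = k + 1 := ⟨lev j - 1, by omega⟩
      have := Nat.find_min (hex j) (m := k) (by change k < lev j; omega)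
      rw [hk]
      omega
  have hlev3 : ∀ j n, N n ≤ j → j < N (n + 1) → lev j = n := by
    intro j n h1 h2
    have h3 : lev j ≤ n := Nat.find_min' (hex j) h2
    by_contra h4
    have h5 : lev j + 1 ≤ n := by omega
    have := hmono.monotone h5
    have := hlev2 j
    omega
  set x : ℕ → F := fun j => enumF (SS b G (lev j + 1)) (j - N (lev j)) with hx
  have hxm : ∀ j, x j ∈ SS b G (lev j + 1) := by
    intro j
    refine enumF_mem _ ?_
    have h1 := hlev2 j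
    have h2 := hlev1 j
    rw [hNs] at h1
    omega
  have hfind : ∀ n, ∀ y ∈ SS b G (n + 1), ∃ j, lev j = n ∧ x j = y := by
    intro n y hy
    obtain ⟨k, hk, hk2⟩ := exists_enumF _ hy
    have h1 : lev (N n + k) = n := hlev3 _ _ (by omega) (by rw [hNs]; omega)
    refine ⟨N n + k, h1, ?_⟩
    simp only [hx]
    rw [h1, show N n + k - N n = k by omega, hk2]
  have hpar : ∀ j, ∃ i, lev j ≠ 0 → lev i + 1 = lev j ∧ x i = b.proj (lev j) (x j) := by
    intro j
    by_cases h : lev j = 0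
    · exact ⟨0, fun h' => absurd h h'⟩
    · obtain ⟨k, hk⟩ : ∃ k, lev j = k + 1 := ⟨lev j - 1, by omega⟩
      have h1 := SS_par (hxm j)
      rw [hk] at h1
      obtain ⟨i, hi1, hi2⟩ := hfind k _ h1
      refine ⟨i, fun _ => ⟨by omega, ?_⟩⟩
      rw [hi2, hk]
  choose par hpar using hpar
  refine ⟨{ N := N, N_zero := by simp [hN], N_lt := hlt, lev := lev, lev_le := hlev1,
            lt_lev := hlev2, par := par, lev_par := fun j h => (hpar j h).1, x := x,
            norm_x := fun j => SS_norm (hxm j), proj_x := fun j => SS_proj le_rfl (hxm j),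
            x_par := fun j h => (hpar j h).2 }, ?_⟩
  intro n y hy
  obtain ⟨j, _, hj⟩ := hfind n y hy
  exact ⟨j, hj⟩

theorem exists_net (M ε : ℝ) (hε : 0 < ε) : ∃ G : Finset 𝕜, (0 : 𝕜) ∈ G ∧
    ∀ c : 𝕜, ‖c‖ ≤ M → ∃ g ∈ G, ‖c - g‖ ≤ ε := by
  classical
  have h1 : TotallyBounded (Metric.closedBall (0 : 𝕜) M) :=
    (isCompact_closedBall (0 : 𝕜) M).totallyBounded
  obtain ⟨t, ht, ht2⟩ := Metric.totallyBounded_iff.1 h1 ε hε
  refine ⟨insert 0 ht.toFinset, Finset.mem_insert_self _ _, fun c hc => ?_⟩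
  have h2 := ht2 (show c ∈ Metric.closedBall (0 : 𝕜) M by simpa using hc)
  simp only [Set.mem_iUnion] at h2
  obtain ⟨g, hg, hg2⟩ := h2
  refine ⟨g, Finset.mem_insert_of_mem (ht.mem_toFinset.2 hg), ?_⟩
  rw [Metric.mem_ball, dist_eq_norm] at hg2
  exact hg2.le

/-- A space with a basis is the image of `ℓ¹ × ℓ¹` under a tree surjection. -/
theorem exists_surjective [CompleteSpace F] (b : SchauderBasis 𝕜 F) :
    ∃ V : VForest b, Function.Surjective V.u0 := by
  classical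
  obtain ⟨C, hC⟩ := b.exists_norm_proj_le
  set D : ℝ := max C 1 with hD
  have hD1 : 1 ≤ D := le_max_right _ _
  have hproj : ∀ n y, ‖b.proj n y‖ ≤ D * ‖y‖ := fun n y =>
    ((b.proj n).le_opNorm y).trans
      (mul_le_mul_of_nonneg_right ((hC n).trans (le_max_left _ _)) (norm_nonneg _))
  set ρ : ℝ := 1 / (2 * D) with hρ
  have hρ0 : 0 < ρ := by positivity
  have hρ1 : D * ρ = 1 / 2 := by rw [hρ]; field_simp
  have hρ2 : ρ ≤ 1 / 2 := by nlinarith
  -- the grids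
  have hG : ∀ i, ∃ G : Finset 𝕜, (0 : 𝕜) ∈ G ∧ ∀ c : 𝕜, ‖c‖ ≤ 1 / ‖b i‖ →
      ∃ g ∈ G, ‖c - g‖ ≤ ρ / 4 * (1 / 2) ^ (i + 1) / ‖b i‖ := fun i =>
    exists_net _ _ (div_pos (by positivity) (VForest.norm_b_pos i))
  choose G hG0 hG1 using hG
  obtain ⟨V, hV⟩ := exists_VForest b G hG0
  refine ⟨V, surjective_of_dense V.u0 hρ0 fun y hy => ?_⟩
  -- approximate the coordinates
  have hcoord : ∀ i, ‖b.coord i y‖ ≤ 1 / ‖b i‖ := by
    intro i
    rw [le_div_iff₀ (VForest.norm_b_pos i), ← norm_smul]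
    have h1 : b.coord i y • b i = b.proj (i + 1) y - b.proj i y := by
      rw [VForest.proj_succ]; abel
    rw [h1]
    calc _ ≤ ‖b.proj (i + 1) y‖ + ‖b.proj i y‖ := norm_sub_le _ _
      _ ≤ D * ‖y‖ + D * ‖y‖ := add_le_add (hproj _ _) (hproj _ _)
      _ ≤ D * ρ + D * ρ := by gcongr
      _ = 1 := by rw [hρ1]; norm_num
  choose c hc1 hc2 using fun i => hG1 i _ (hcoord i)
  have hdiff : ∀ n, ‖b.proj n y - ∑ i ∈ Finset.range n, c i • b i‖ ≤ ρ / 4 := by
    intro n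
    rw [SchauderBasis.proj_apply, ← Finset.sum_sub_distrib]
    calc _ ≤ ∑ i ∈ Finset.range n, ρ / 4 * (1 / 2) ^ (i + 1) := by
          refine norm_sum_le_of_le _ fun i _ => ?_
          rw [← sub_smul, norm_smul]
          have := hc2 i
          rwa [le_div_iff₀ (VForest.norm_b_pos i)] at this
      _ ≤ ∑' i, ρ / 4 * (1 / 2) ^ (i + 1) := by
          refine Summable.sum_le_tsum _ (fun i _ => by positivity) ?_
          refine Summable.mul_left _ ?_
          exact (summable_nat_add_iff 1).2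
            (summable_geometric_of_lt_one (by norm_num) (by norm_num))
      _ = ρ / 4 := by
          rw [tsum_mul_left]
          have h1 : ∑' i : ℕ, ((1 : ℝ) / 2) ^ (i + 1) = 1 := by
            simp only [pow_succ]
            rw [tsum_mul_right, tsum_geometric_two]
            norm_num
          rw [h1, mul_one]
  have hle1 : ∀ k, ‖∑ i ∈ Finset.range k, c i • b i‖ ≤ 1 := by
    intro k
    have h1 := hdiff k
    have h2 := hproj k y
    have h3 : ‖∑ i ∈ Finset.range k, c i • b i‖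
        ≤ ‖b.proj k y‖ + ‖b.proj k y - ∑ i ∈ Finset.range k, c i • b i‖ := by
      calc _ = ‖b.proj k y - (b.proj k y - ∑ i ∈ Finset.range k, c i • b i)‖ := by congr 1; abel
        _ ≤ _ := norm_sub_le _ _
    have h4 : D * ‖y‖ ≤ 1 / 2 := by
      rw [← hρ1]
      gcongr
    linarith
  -- a good level
  have h1 := (SchauderBasis.tendsto_proj b y)
  rw [Metric.tendsto_atTop] at h1
  obtain ⟨n, hn⟩ := h1 (ρ / 4) (by positivity)
  have h2 := hn (n + 1) (by omega)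
  rw [dist_eq_norm] at h2
  obtain ⟨j, hj⟩ := hV n _ (SS_sum hc1 hle1 (n + 1))
  refine ⟨(δ j, 0), ?_, ?_⟩
  · rw [Prod.norm_mk, norm_δ, norm_zero]
    simp
  · rw [VForest.u0_apply]
    have h3 : V.u1 (δ j) = V.x j := lift_δ _ _
    rw [h3, map_zero, add_zero, hj]
    have h4 := hdiff (n + 1)
    calc ‖y - ∑ i ∈ Finset.range (n + 1), c i • b i‖
        = ‖-(b.proj (n + 1) y - y)
            + (b.proj (n + 1) y - ∑ i ∈ Finset.range (n + 1), c i • b i)‖ := by congr 1; abel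
      _ ≤ ‖b.proj (n + 1) y - y‖ + ‖b.proj (n + 1) y - ∑ i ∈ Finset.range (n + 1), c i • b i‖ := by
          refine (norm_add_le _ _).trans_eq ?_
          rw [norm_neg]
      _ ≤ ρ / 4 + ρ / 4 := add_le_add h2.le h4
      _ = ρ / 2 := by ring

end

end Pool.Agent.Helper89.KB
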