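import Pool.Agent.Helper89.KB.L1

/-!
# Forests with finite levels and the associated operators on `ℓ¹`
-/

set_option autoImplicit false

open Filter Topology

namespace Pool.Agent.Helper89.KB

noncomputable section

/-- A forest on `ℕ` with finite consecutive levels `[N n, N (n+1))`. -/
structure Forest where
  /-- first node of a level -/
  N : ℕ → ℕ
  N_zero : N 0 = 0
  N_lt : ∀ n, N n < N (n + 1)
  /-- level of a node -/
  lev : ℕ → ℕ
  lev_le : ∀ j, N (lev j) ≤ j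
  lt_lev : ∀ j, j < N (lev j + 1)
  /-- parent of a node (of positive level) -/
  par : ℕ → ℕ
  lev_par : ∀ j, lev j ≠ 0 → lev (par j) + 1 = lev j

namespace Forest

variable (S : Forest)

theorem strictMono_N : StrictMono S.N := strictMono_nat_of_lt_succ S.N_lt

theorem le_lev_iff (j n : ℕ) : n ≤ S.lev j ↔ S.N n ≤ j := by
  constructor
  · intro h
    exact (S.strictMono_N.monotone h).trans (S.lev_le j)
  · intro h
    by_contra h1
    push Not at h1
    have h2 := S.strictMono_N.monotone (show S.lev j + 1 ≤ n from h1)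
    have h3 := S.lt_lev j
    omega

theorem lev_eq_iff (j n : ℕ) : S.lev j = n ↔ S.N n ≤ j ∧ j < S.N (n + 1) := by
  rw [← S.le_lev_iff, ← not_le, ← S.le_lev_iff]
  omega

theorem lev_mono : Monotone S.lev := by
  intro i j h
  rw [S.le_lev_iff]
  exact (S.lev_le i).trans h

theorem tendsto_N : Tendsto S.N atTop atTop := S.strictMono_N.tendsto_atTop

theorem tendsto_lev : Tendsto S.lev atTop atTop := by
  rw [tendsto_atTop]
  intro n
  filter_upwards [eventually_ge_atTop (S.N n)] with j hj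
  exact (S.le_lev_iff j n).2 hj

/-- ancestor of `i` of level `m` -/
def anc (i m : ℕ) : ℕ := S.par^[S.lev i - m] i

theorem lev_iter (i k : ℕ) (h : k ≤ S.lev i) : S.lev (S.par^[k] i) = S.lev i - k := by
  induction k with
  | zero => simp
  | succ k ih =>
    rw [Function.iterate_succ_apply']
    have h1 := ih (by omega)
    have h2 := S.lev_par (S.par^[k] i) (by omega)
    omega

theorem lev_anc {i m : ℕ} (h : m ≤ S.lev i) : S.lev (S.anc i m) = m := by
  unfold anc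
  rw [S.lev_iter i _ (by omega)]
  omega

theorem anc_self (i : ℕ) : S.anc i (S.lev i) = i := by
  simp [anc]

theorem anc_par {i m : ℕ} (h : m + 1 ≤ S.lev i) : S.anc (S.par i) m = S.anc i m := by
  unfold anc
  have h1 := S.lev_par i (by omega)
  rw [show S.lev i - m = (S.lev (S.par i) - m) + 1 by omega, Function.iterate_succ_apply]

theorem par_anc {i m : ℕ} (h : m + 1 ≤ S.lev i) : S.par (S.anc i (m + 1)) = S.anc i m := by
  unfold anc
  rw [show S.lev i - m = (S.lev i - (m + 1)) + 1 by omega, Function.iterate_succ_apply']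

variable {𝕜 : Type*} [RCLike 𝕜]

/-- `T m` moves every node of level at least `m` to its ancestor of level `m`. -/
def T (𝕜 : Type*) [RCLike 𝕜] (m : ℕ) : E 𝕜 →L[𝕜] E 𝕜 :=
  lift (fun i => if m ≤ S.lev i then δ (S.anc i m) else 0) 1 fun i => by
    split_ifs
    · rw [norm_δ]
    · simp

theorem T_δ (m i : ℕ) : S.T 𝕜 m (δ i) = if m ≤ S.lev i then δ (S.anc i m) else 0 := by
  simp only [T, lift_δ]

/-- restriction to a level -/
def Q (𝕜 : Type*) [RCLike 𝕜] (m : ℕ) : E 𝕜 →L[𝕜] E 𝕜 :=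
  lift (fun i => if S.lev i = m then δ i else 0) 1 fun i => by
    split_ifs
    · rw [norm_δ]
    · simp

theorem Q_δ (m i : ℕ) : S.Q 𝕜 m (δ i) = if S.lev i = m then δ i else 0 := by
  simp only [Q, lift_δ]

/-- moves every node to its parent -/
def R (𝕜 : Type*) [RCLike 𝕜] : E 𝕜 →L[𝕜] E 𝕜 :=
  lift (fun i => if S.lev i = 0 then 0 else δ (S.par i)) 1 fun i => by
    split_ifs
    · simp
    · rw [norm_δ]

theorem R_δ (i : ℕ) : S.R 𝕜 (δ i) = if S.lev i = 0 then 0 else δ (S.par i) := by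
  simp only [R, lift_δ]

theorem norm_R_le (ξ : E 𝕜) : ‖S.R 𝕜 ξ‖ ≤ ‖ξ‖ := by
  have := norm_lift_le (X := E 𝕜) (y := fun i => if S.lev i = 0 then 0 else δ (S.par i)) (C := 1)
    (fun i => by
      split_ifs
      · simp
      · rw [norm_δ]) ξ
  rw [one_mul] at this
  exact this

theorem norm_T_le (m : ℕ) (ξ : E 𝕜) : ‖S.T 𝕜 m ξ‖ ≤ ‖ξ‖ := by
  have := norm_lift_le (X := E 𝕜) (y := fun i => if m ≤ S.lev i then δ (S.anc i m) else 0) (C := 1)
    (fun i => by
      split_ifs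
      · rw [norm_δ]
      · simp) ξ
  rw [one_mul] at this
  exact this

theorem R_T_succ (m : ℕ) (ξ : E 𝕜) : S.R 𝕜 (S.T 𝕜 (m + 1) ξ) = S.T 𝕜 m ξ - S.Q 𝕜 m ξ := by
  have : (S.R 𝕜) ∘L (S.T 𝕜 (m + 1)) = S.T 𝕜 m - S.Q 𝕜 m := by
    refine ext_δ fun i => ?_
    rw [ContinuousLinearMap.comp_apply, sub_apply, T_δ, T_δ, Q_δ]
    rcases lt_trichotomy (S.lev i) m with h | h | h
    · rw [if_neg (by omega), if_neg (by omega), if_neg (by omega)]
      simp
    · subst h
      rw [if_neg (by omega), if_pos le_rfl, if_pos rfl, S.anc_self]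
      simp
    · rw [if_pos (by omega), if_pos (by omega), if_neg (by omega), R_δ,
        S.lev_anc (by omega), if_neg (by omega), S.par_anc (by omega)]
      simp
  exact congrArg (fun f : E 𝕜 →L[𝕜] E 𝕜 => f ξ) this

theorem R_T_zero (ξ : E 𝕜) : S.R 𝕜 (S.T 𝕜 0 ξ) = 0 := by
  have : (S.R 𝕜) ∘L (S.T 𝕜 0) = 0 := by
    refine ext_δ fun i => ?_
    rw [ContinuousLinearMap.comp_apply, T_δ, if_pos (Nat.zero_le _), R_δ, S.lev_anc (Nat.zero_le _)]
    simp
  exact congrArg (fun f : E 𝕜 →L[𝕜] E 𝕜 => f ξ) this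

theorem T_sub_T_R (m : ℕ) (ξ : E 𝕜) : S.T 𝕜 m (ξ - S.R 𝕜 ξ) = S.Q 𝕜 m ξ := by
  have : S.T 𝕜 m - (S.T 𝕜 m) ∘L (S.R 𝕜) = S.Q 𝕜 m := by
    refine ext_δ fun i => ?_
    rw [sub_apply, ContinuousLinearMap.comp_apply, T_δ, Q_δ, R_δ]
    by_cases h0 : S.lev i = 0
    · rw [if_pos h0, map_zero, sub_zero]
      by_cases hm : m = 0
      · subst hm
        rw [if_pos (Nat.zero_le _), if_pos h0]
        congr 1
        conv_lhs => rw [← h0]
        rw [S.anc_self]
      · rw [if_neg (by omega), if_neg (by omega)]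
    · rw [if_neg h0, T_δ]
      have h1 := S.lev_par i h0
      rcases lt_trichotomy (S.lev i) m with h | h | h
      · rw [if_neg (by omega), if_neg (by omega), if_neg (by omega)]
        simp
      · subst h
        rw [if_pos le_rfl, if_neg (by omega), if_pos rfl, S.anc_self]
        simp
      · rw [if_pos (by omega), if_pos (by omega), if_neg (by omega), S.anc_par (by omega)]
        simp
  have h2 := congrArg (fun f : E 𝕜 →L[𝕜] E 𝕜 => f ξ) this
  simp only [sub_apply, ContinuousLinearMap.comp_apply] at h2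
  rw [map_sub]
  exact h2

theorem Q_T (m : ℕ) (ξ : E 𝕜) : S.Q 𝕜 m (S.T 𝕜 m ξ) = S.T 𝕜 m ξ := by
  have : (S.Q 𝕜 m) ∘L (S.T 𝕜 m) = S.T 𝕜 m := by
    refine ext_δ fun i => ?_
    rw [ContinuousLinearMap.comp_apply, T_δ]
    split_ifs with h
    · rw [Q_δ, S.lev_anc h, if_pos rfl]
    · simp
  exact congrArg (fun f : E 𝕜 →L[𝕜] E 𝕜 => f ξ) this

theorem Q_eq_sum (m : ℕ) (ξ : E 𝕜) :
    S.Q 𝕜 m ξ = ∑ j ∈ Finset.Ico (S.N m) (S.N (m + 1)), ξ j • (δ j : E 𝕜) := by
  have : S.Q 𝕜 m = ∑ j ∈ Finset.Ico (S.N m) (S.N (m + 1)), (ev j).smulRight (δ j : E 𝕜) := by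
    refine ext_δ fun i => ?_
    rw [Q_δ, sum_apply]
    simp only [ContinuousLinearMap.smulRight_apply, ev_apply, δ_apply, ite_smul, one_smul,
      zero_smul]
    rw [Finset.sum_ite_eq']
    simp only [Finset.mem_Ico, ← S.lev_eq_iff]
  rw [this, sum_apply]
  rfl

theorem T_eq_sum (m : ℕ) (ξ : E 𝕜) :
    S.T 𝕜 m ξ = ∑ j ∈ Finset.Ico (S.N m) (S.N (m + 1)), (S.T 𝕜 m ξ) j • (δ j : E 𝕜) := by
  conv_lhs => rw [← S.Q_T, S.Q_eq_sum]

theorem sum_Q (n : ℕ) (ξ : E 𝕜) :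
    ∑ m ∈ Finset.range n, S.Q 𝕜 m ξ = ∑ i ∈ Finset.range (S.N n), ξ i • (δ i : E 𝕜) := by
  induction n with
  | zero => simp [S.N_zero]
  | succ n ih =>
    rw [Finset.sum_range_succ, ih, S.Q_eq_sum,
      ← Finset.sum_range_add_sum_Ico _ (S.N_lt n).le]

theorem norm_T_tail (n : ℕ) (ξ : E 𝕜) :
    ‖S.T 𝕜 n ξ‖ ≤ ‖ξ - ∑ i ∈ Finset.range (S.N n), ξ i • (δ i : E 𝕜)‖ := by
  have h : S.T 𝕜 n ξ = S.T 𝕜 n (ξ - ∑ i ∈ Finset.range (S.N n), ξ i • (δ i : E 𝕜)) := by
    rw [map_sub, map_sum, Finset.sum_eq_zero, sub_zero]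
    intro i hi
    rw [map_smul, T_δ, if_neg, smul_zero]
    rw [S.le_lev_iff]
    exact not_le.2 (Finset.mem_range.1 hi)
  rw [h]
  exact S.norm_T_le n _

theorem tendsto_T (ξ : E 𝕜) : Tendsto (fun n => ‖S.T 𝕜 n ξ‖) atTop (𝓝 0) := by
  have h1 : Tendsto (fun n => ‖ξ - ∑ i ∈ Finset.range (S.N n), ξ i • (δ i : E 𝕜)‖) atTop (𝓝 0) := by
    have h2 := ((tendsto_δ ξ).comp S.tendsto_N).const_sub ξ
    rw [sub_self] at h2
    exact h2.norm.trans_eq (by rw [norm_zero])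
  exact squeeze_zero (fun _ => norm_nonneg _) (fun n => S.norm_T_tail n ξ) h1

end Forest

end

end Pool.Agent.Helper89.KB
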