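import Pool.Agent.Helper89.KB.Iso

/-!
# Every infinite dimensional closed subspace of `ℓ¹` contains a complemented copy of `ℓ¹`
-/

set_option autoImplicit false

open Filter Topology

namespace Pool.Agent.Helper89.KB

noncomputable section

variable {𝕜 : Type*} [RCLike 𝕜]

/-- initial part of a vector -/
def trunc (M : ℕ) (ξ : E 𝕜) : E 𝕜 := ∑ i ∈ Finset.range M, ξ i • (δ i : E 𝕜)

theorem exists_vanish (K : Submodule 𝕜 (E 𝕜)) (hK : ¬ FiniteDimensional 𝕜 K) (N : ℕ) :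
    ∃ k ∈ K, ‖k‖ = 1 ∧ ∀ i < N, k i = 0 := by
  let f : K →ₗ[𝕜] (Fin N → 𝕜) := LinearMap.pi fun i =>
    ((ev (i : ℕ) : E 𝕜 →L[𝕜] 𝕜) : E 𝕜 →ₗ[𝕜] 𝕜) ∘ₗ K.subtype
  have h1 : ¬ Function.Injective f := fun h => hK (FiniteDimensional.of_injective f h)
  rw [← LinearMap.ker_eq_bot, LinearMap.ker_eq_bot'] at h1
  push Not at h1
  obtain ⟨k, hk, hk0⟩ := h1
  have hk0' : (k : E 𝕜) ≠ 0 := fun h => hk0 (Subtype.ext h)
  have hn : 0 < ‖(k : E 𝕜)‖ := norm_pos_iff.2 hk0'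
  refine ⟨((‖(k : E 𝕜)‖⁻¹ : ℝ) : 𝕜) • (k : E 𝕜), K.smul_mem _ k.2, ?_, fun i hi => ?_⟩
  · rw [norm_smul, RCLike.norm_ofReal, abs_of_pos (inv_pos.2 hn), inv_mul_cancel₀ hn.ne']
  · have h2 : f k ⟨i, hi⟩ = 0 := by rw [hk]; rfl
    have h3 : (k : E 𝕜) i = 0 := h2
    rw [lp.coeFn_smul, Pi.smul_apply, h3, smul_zero]

theorem exists_step (K : Submodule 𝕜 (E 𝕜)) (hK : ¬ FiniteDimensional 𝕜 K) (N : ℕ) :
    ∃ k ∈ K, ‖k‖ = 1 ∧ (∀ i < N, k i = 0) ∧ ∃ M, N < M ∧ ‖k - trunc M k‖ ≤ 1 / 8 := by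
  obtain ⟨k, hk, hk1, hk2⟩ := exists_vanish K hK N
  refine ⟨k, hk, hk1, hk2, ?_⟩
  have h := tendsto_δ k
  rw [Metric.tendsto_atTop] at h
  obtain ⟨M, hM⟩ := h (1 / 8) (by norm_num)
  refine ⟨max M (N + 1), lt_of_lt_of_le (Nat.lt_succ_self N) (le_max_right _ _), ?_⟩
  have := hM _ (le_max_left M (N + 1))
  rw [dist_comm, dist_eq_norm] at this
  exact this.le

theorem norm_trunc (M : ℕ) (ξ : E 𝕜) : ‖trunc M ξ‖ = ∑ i ∈ Finset.range M, ‖ξ i‖ := by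
  have h := lp.norm_sum_single (p := 1) (E := fun _ : ℕ => 𝕜) (by simp) (fun i => ξ i)
    (Finset.range M)
  simp only [ENNReal.toReal_one, Real.rpow_one] at h
  rw [← h, trunc]
  simp only [single_eq]

theorem norm_sub_trunc (M : ℕ) (ξ : E 𝕜) :
    ‖ξ - trunc M ξ‖ = ‖ξ‖ - ∑ i ∈ Finset.range M, ‖ξ i‖ := by
  have h := lp.norm_compl_sum_single (p := 1) (E := fun _ : ℕ => 𝕜) (by simp) ξ (Finset.range M)
  simp only [ENNReal.toReal_one, Real.rpow_one] at h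
  rw [← h, trunc]
  simp only [single_eq]

/-- The sequence of levels for a strictly increasing sequence. -/
theorem exists_lev (N : ℕ → ℕ) (h0 : N 0 = 0) (hN : ∀ n, N n < N (n + 1)) :
    ∃ lev : ℕ → ℕ, ∀ j n, lev j = n ↔ N n ≤ j ∧ j < N (n + 1) := by
  have hmono : StrictMono N := strictMono_nat_of_lt_succ hN
  have hex : ∀ j, ∃ n, j < N (n + 1) := fun j =>
    ⟨j, lt_of_lt_of_le (Nat.lt_succ_self j) (hmono.id_le (j + 1))⟩
  refine ⟨fun j => Nat.find (hex j), fun j n => ⟨?_, ?_⟩⟩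
  · rintro rfl
    refine ⟨?_, Nat.find_spec (hex j)⟩
    change N (Nat.find (hex j)) ≤ j
    rcases Nat.eq_zero_or_pos (Nat.find (hex j)) with h | h
    · rw [h, h0]; exact Nat.zero_le _
    · obtain ⟨k, hk⟩ : ∃ k, Nat.find (hex j) = k + 1 := ⟨Nat.find (hex j) - 1, by omega⟩
      have := Nat.find_min (hex j) (m := k) (by omega)
      rw [hk]
      omega
  · rintro ⟨h1, h2⟩
    have h3 : Nat.find (hex j) ≤ n := Nat.find_min' (hex j) h2
    by_contra h4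
    have h5 : Nat.find (hex j) + 1 ≤ n := by
      have : Nat.find (hex j) ≠ n := h4
      omega
    have := hmono.monotone h5
    have := Nat.find_spec (hex j)
    omega

/-- phase -/
def ph (c : 𝕜) : 𝕜 := (starRingEnd 𝕜) c * ((‖c‖⁻¹ : ℝ) : 𝕜)

theorem norm_ph_le (c : 𝕜) : ‖ph c‖ ≤ 1 := by
  unfold ph
  rw [norm_mul, RCLike.norm_conj, RCLike.norm_ofReal, abs_of_nonneg (inv_nonneg.2 (norm_nonneg _))]
  exact mul_inv_le_one

theorem mul_ph (c : 𝕜) : c * ph c = (‖c‖ : 𝕜) := by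
  unfold ph
  rw [← mul_assoc, RCLike.mul_conj]
  by_cases hc : ‖c‖ = 0
  · simp [hc]
  · rw [← RCLike.ofReal_pow, ← RCLike.ofReal_mul]
    congr 1
    field_simp

theorem exists_complemented (K : Submodule 𝕜 (E 𝕜)) (hKc : IsClosed (K : Set (E 𝕜)))
    (hK : ¬ FiniteDimensional 𝕜 K) :
    ∃ (J : E 𝕜 →L[𝕜] K) (B : K →L[𝕜] E 𝕜), B ∘L J = ContinuousLinearMap.id 𝕜 (E 𝕜) := by
  classical
  have : CompleteSpace K := hKc.completeSpace_coe
  choose k hkK hk1 hk2 M hM1 hM2 using exists_step K hK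
  let N : ℕ → ℕ := fun n => Nat.rec 0 (fun _ a => M a) n
  have hN0 : N 0 = 0 := rfl
  have hNs : ∀ n, N (n + 1) = M (N n) := fun n => rfl
  have hNlt : ∀ n, N n < N (n + 1) := fun n => by rw [hNs]; exact hM1 _
  obtain ⟨lev, hlev⟩ := exists_lev N hN0 hNlt
  -- norms of the humps
  set w : ℕ → ℝ := fun n => ∑ i ∈ Finset.range (N (n + 1)), ‖(k (N n)) i‖ with hw
  have hw1 : ∀ n, 7 / 8 ≤ w n := by
    intro n
    have h1 := hM2 (N n)
    rw [norm_sub_trunc, hk1] at h1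
    have : w n = ∑ i ∈ Finset.range (M (N n)), ‖(k (N n)) i‖ := rfl
    linarith
  have hw0 : ∀ n, 0 < w n := fun n => by have := hw1 n; linarith
  -- the operator `B₀`
  let y : ℕ → E 𝕜 := fun i => (ph ((k (N (lev i))) i) * (((w (lev i))⁻¹ : ℝ) : 𝕜)) • δ (lev i)
  have hy : ∀ i, ‖y i‖ ≤ 2 := by
    intro i
    simp only [y]
    rw [norm_smul, norm_δ, mul_one, norm_mul, RCLike.norm_ofReal,
      abs_of_pos (inv_pos.2 (hw0 _))]
    have h1 : (w (lev i))⁻¹ ≤ 2 := by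
      rw [inv_le_comm₀ (hw0 _) (by norm_num)]
      have := hw1 (lev i)
      linarith
    calc _ ≤ 1 * 2 := mul_le_mul (norm_ph_le _) h1 (inv_nonneg.2 (hw0 _).le) (by norm_num)
      _ = 2 := by norm_num
  let B0 : E 𝕜 →L[𝕜] E 𝕜 := lift y 2 hy
  let J : E 𝕜 →L[𝕜] K := lift (fun n => ⟨k (N n), hkK _⟩) 1 fun n => (hk1 (N n)).le
  have hJ : ∀ n, ((J (δ n) : K) : E 𝕜) = k (N n) := fun n => by
    have : J (δ n) = ⟨k (N n), hkK _⟩ := lift_δ _ _
    rw [this]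
  -- B₀ maps the main part to `δ n`
  have hB1 : ∀ n, B0 (trunc (N (n + 1)) (k (N n))) = δ n := by
    intro n
    rw [trunc, map_sum]
    have h1 : ∀ i ∈ Finset.range (N (n + 1)), B0 ((k (N n)) i • (δ i : E 𝕜))
        = ((‖(k (N n)) i‖ * (w n)⁻¹ : ℝ) : 𝕜) • (δ n : E 𝕜) := by
      intro i hi
      rw [Finset.mem_range] at hi
      rw [map_smul]
      have h2 : B0 (δ i) = y i := lift_δ _ _
      rw [h2]
      rcases le_or_gt (N n) i with h3 | h3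
      · have h4 : lev i = n := (hlev i n).2 ⟨h3, hi⟩
        simp only [y]
        rw [h4, smul_smul, ← mul_assoc, mul_ph, ← RCLike.ofReal_mul]
      · rw [hk2 _ _ h3]
        simp
    rw [Finset.sum_congr rfl h1, ← Finset.sum_smul, ← RCLike.ofReal_sum, ← Finset.sum_mul]
    have h5 : (∑ i ∈ Finset.range (N (n + 1)), ‖(k (N n)) i‖) * (w n)⁻¹ = 1 :=
      mul_inv_cancel₀ (hw0 n).ne'
    rw [h5]
    simp
  let D : E 𝕜 →L[𝕜] E 𝕜 := lift (fun n => δ n - B0 (k (N n))) (1 / 4) fun n => by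
    have h1 : (δ n : E 𝕜) - B0 (k (N n)) = -(B0 (k (N n) - trunc (N (n + 1)) (k (N n)))) := by
      rw [map_sub, hB1]
      abel
    rw [h1, norm_neg]
    calc _ ≤ 2 * ‖k (N n) - trunc (N (n + 1)) (k (N n))‖ := norm_lift_le hy _
      _ ≤ 2 * (1 / 8) := by
          have := hM2 (N n)
          rw [← hNs] at this
          linarith
      _ = 1 / 4 := by norm_num
  have hD : ‖D‖ ≤ 1 / 4 :=
    ContinuousLinearMap.opNorm_le_bound _ (by norm_num) fun ξ => norm_lift_le _ ξ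
  have hunit : IsUnit (1 - D) := isUnit_one_sub_of_norm_lt_one (lt_of_le_of_lt hD (by norm_num))
  obtain ⟨U, hU⟩ := hunit
  have hBJ : (B0 ∘L K.subtypeL) ∘L J = 1 - D := by
    refine ext_δ fun n => ?_
    have h2 : D (δ n) = δ n - B0 (k (N n)) := lift_δ _ _
    rw [ContinuousLinearMap.comp_apply, ContinuousLinearMap.comp_apply, Submodule.subtypeL_apply,
      hJ, sub_apply, h2, one_apply_eq_self]
    abel
  refine ⟨J, ((U⁻¹ : (E 𝕜 →L[𝕜] E 𝕜)ˣ) : E 𝕜 →L[𝕜] E 𝕜) ∘L (B0 ∘L K.subtypeL), ?_⟩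
  rw [ContinuousLinearMap.comp_assoc, hBJ, ← hU]
  exact U.inv_mul

end

end Pool.Agent.Helper89.KB
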