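import Pool.Agent.Helper89.KB.TreeKernel

/-!
# Isomorphisms: transport of bases, Schanuel's lemma, absorption of `ℓ¹`
-/

set_option autoImplicit false

open Filter Topology

namespace Pool.Agent.Helper89.KB

noncomputable section

variable {𝕜 : Type*} [RCLike 𝕜]
variable {X Y W F : Type*} [NormedAddCommGroup X] [NormedSpace 𝕜 X] [NormedAddCommGroup Y]
  [NormedSpace 𝕜 Y] [NormedAddCommGroup W] [NormedSpace 𝕜 W] [NormedAddCommGroup F]
  [NormedSpace 𝕜 F]

/-- Construction of a basis from elementary data. -/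
def mkBasis (e : ℕ → X) (f : ℕ → X →L[𝕜] 𝕜) (h1 : ∀ i j, f i (e j) = if i = j then 1 else 0)
    (h2 : ∀ x, Tendsto (fun n => ∑ i ∈ Finset.range n, f i x • e i) atTop (𝓝 x)) :
    SchauderBasis 𝕜 X where
  basis := e
  coord := f
  ortho i j := by rw [h1, single_ite]
  expansion x := by
    rw [hasSum_cond]
    exact h2 x

theorem tendsto_expansion (b : SchauderBasis 𝕜 X) (x : X) :
    Tendsto (fun n => ∑ i ∈ Finset.range n, b.coord i x • b i) atTop (𝓝 x) := by
  have := b.expansion x
  rwa [hasSum_cond] at this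

/-- Transport of a basis along an isomorphism. -/
def basisMap (e : X ≃L[𝕜] Y) (b : SchauderBasis 𝕜 X) : SchauderBasis 𝕜 Y :=
  mkBasis (fun i => e (b i)) (fun i => (b.coord i) ∘L (e.symm : Y →L[𝕜] X))
    (fun i j => by simp [ortho'])
    (fun y => by
      have h := (e.continuous.tendsto _).comp (tendsto_expansion b (e.symm y))
      rw [e.apply_symm_apply] at h
      refine h.congr fun n => ?_
      simp [map_sum])

/-- interleaving -/
def basisProd (b : SchauderBasis 𝕜 X) (c : SchauderBasis 𝕜 Y) : SchauderBasis 𝕜 (X × Y) :=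
  mkBasis (fun i => if i % 2 = 0 then (b (i / 2), 0) else (0, c (i / 2)))
    (fun i => if i % 2 = 0 then (b.coord (i / 2)) ∘L ContinuousLinearMap.fst 𝕜 X Y
      else (c.coord (i / 2)) ∘L ContinuousLinearMap.snd 𝕜 X Y)
    (fun i j => by
      rcases Nat.mod_two_eq_zero_or_one i with hi | hi <;>
      rcases Nat.mod_two_eq_zero_or_one j with hj | hj
      · rw [if_pos hi, if_pos hj, ContinuousLinearMap.comp_apply, ContinuousLinearMap.coe_fst',
          ortho']
        congr 1
        exact propext ⟨fun h => by omega, fun h => by omega⟩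
      · rw [if_pos hi, if_neg (by omega), ContinuousLinearMap.comp_apply,
          ContinuousLinearMap.coe_fst', map_zero, if_neg (by omega)]
      · rw [if_neg (by omega), if_pos hj, ContinuousLinearMap.comp_apply,
          ContinuousLinearMap.coe_snd', map_zero, if_neg (by omega)]
      · rw [if_neg (by omega), if_neg (by omega), ContinuousLinearMap.comp_apply,
          ContinuousLinearMap.coe_snd', ortho']
        congr 1
        exact propext ⟨fun h => by omega, fun h => by omega⟩)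
    (fun v => by
      obtain ⟨x, y⟩ := v
      have key : ∀ n, ∑ i ∈ Finset.range n,
          ((if i % 2 = 0 then (b.coord (i / 2)) ∘L ContinuousLinearMap.fst 𝕜 X Y
            else (c.coord (i / 2)) ∘L ContinuousLinearMap.snd 𝕜 X Y) (x, y)) •
            (if i % 2 = 0 then ((b (i / 2), 0) : X × Y) else (0, c (i / 2)))
          = (∑ i ∈ Finset.range ((n + 1) / 2), b.coord i x • b i,
              ∑ i ∈ Finset.range (n / 2), c.coord i y • c i) := by
        intro n
        induction n with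
        | zero =>
          simp
          rfl
        | succ n ih =>
          rw [Finset.sum_range_succ, ih]
          rcases Nat.mod_two_eq_zero_or_one n with hn | hn
          · rw [if_pos hn, if_pos hn]
            refine Prod.ext ?_ ?_
            · have h1 : (n + 1 + 1) / 2 = n / 2 + 1 := by omega
              have h2 : (n + 1) / 2 = n / 2 := by omega
              simp [h1, h2, Finset.sum_range_succ]
            · have h2 : (n + 1) / 2 = n / 2 := by omega
              simp [h2]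
          · rw [if_neg (by omega), if_neg (by omega)]
            refine Prod.ext ?_ ?_
            · have h1 : (n + 1 + 1) / 2 = (n + 1) / 2 := by omega
              simp [h1]
            · have h2 : (n + 1) / 2 = n / 2 + 1 := by omega
              simp [h2, Finset.sum_range_succ]
      simp only [key]
      have t1 : Tendsto (fun n : ℕ => (n + 1) / 2) atTop atTop := by
        rw [tendsto_atTop]
        intro k
        filter_upwards [eventually_ge_atTop (2 * k)] with n hn
        omega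
      have t2 : Tendsto (fun n : ℕ => n / 2) atTop atTop := by
        rw [tendsto_atTop]
        intro k
        filter_upwards [eventually_ge_atTop (2 * k)] with n hn
        omega
      exact ((tendsto_expansion b x).comp t1).prodMk_nhds ((tendsto_expansion c y).comp t2))

/-- the unit vector basis of `ℓ¹` -/
def basisE : SchauderBasis 𝕜 (E 𝕜) :=
  mkBasis δ ev (fun i j => by rw [ev_apply, δ_apply]) (fun ξ => tendsto_δ ξ)

/-- `ℓ¹ × ℓ¹ ≃ ℓ¹` -/
def pairE : (E 𝕜 × E 𝕜) ≃L[𝕜] E 𝕜 := by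
  let f1 : E 𝕜 →L[𝕜] E 𝕜 := lift (fun i => δ (2 * i)) 1 fun i => (norm_δ _).le
  let f2 : E 𝕜 →L[𝕜] E 𝕜 := lift (fun i => δ (2 * i + 1)) 1 fun i => (norm_δ _).le
  let g1 : E 𝕜 →L[𝕜] E 𝕜 := lift (fun i => if i % 2 = 0 then δ (i / 2) else 0) 1 fun i => by
    split_ifs
    · rw [norm_δ]
    · simp
  let g2 : E 𝕜 →L[𝕜] E 𝕜 := lift (fun i => if i % 2 = 0 then 0 else δ (i / 2)) 1 fun i => by
    split_ifs
    · simp
    · rw [norm_δ]
  have h11 : g1 ∘L f1 = ContinuousLinearMap.id 𝕜 _ := ext_δ fun i => by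
    simp [f1, g1]
  have h12 : g1 ∘L f2 = 0 := ext_δ fun i => by
    simp [f2, g1]
  have h21 : g2 ∘L f1 = 0 := ext_δ fun i => by
    simp [f1, g2]
  have h22 : g2 ∘L f2 = ContinuousLinearMap.id 𝕜 _ := ext_δ fun i => by
    have h2 : (2 * i + 1) / 2 = i := by omega
    simp [f2, g2, h2]
  have h3 : f1 ∘L g1 + f2 ∘L g2 = ContinuousLinearMap.id 𝕜 _ := ext_δ fun i => by
    rcases Nat.mod_two_eq_zero_or_one i with hi | hi
    · have : 2 * (i / 2) = i := by omega
      simp [f1, g1, f2, g2, hi, this]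
    · have : 2 * (i / 2) + 1 = i := by omega
      simp [f1, g1, f2, g2, hi, this]
  refine ContinuousLinearEquiv.equivOfInverse (f1.coprod f2) (g1.prod g2) ?_ ?_
  · rintro ⟨ξ, η⟩
    have e11 := congrArg (fun f : E 𝕜 →L[𝕜] E 𝕜 => f ξ) h11
    have e12 := congrArg (fun f : E 𝕜 →L[𝕜] E 𝕜 => f η) h12
    have e21 := congrArg (fun f : E 𝕜 →L[𝕜] E 𝕜 => f ξ) h21
    have e22 := congrArg (fun f : E 𝕜 →L[𝕜] E 𝕜 => f η) h22
    simp only [ContinuousLinearMap.comp_apply, ContinuousLinearMap.id_apply, zero_apply]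
      at e11 e12 e21 e22
    simp only [ContinuousLinearMap.coprod_apply, ContinuousLinearMap.prod_apply, map_add, e11,
      e12, e21, e22, Prod.mk_add_mk, add_zero, zero_add]
  · intro ξ
    have e3 := congrArg (fun f : E 𝕜 →L[𝕜] E 𝕜 => f ξ) h3
    simpa using e3

/-- Lifting property of `ℓ¹`. -/
theorem exists_lift [CompleteSpace X] [CompleteSpace F] (v : X →L[𝕜] F)
    (hv : Function.Surjective v) (u : E 𝕜 →L[𝕜] F) : ∃ s : E 𝕜 →L[𝕜] X, v ∘L s = u := by
  obtain ⟨C, hC, h⟩ := v.exists_preimage_norm_le hv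
  choose y hy1 hy2 using fun i : ℕ => h (u (δ i))
  refine ⟨lift y (C * ‖u‖) fun i => (hy2 i).trans ?_, ext_δ fun i => ?_⟩
  · refine mul_le_mul_of_nonneg_left ?_ hC.le
    have := u.le_opNorm (δ i)
    rwa [norm_δ, mul_one] at this
  · rw [ContinuousLinearMap.comp_apply, lift_δ, hy1]

theorem exists_lift₂ [CompleteSpace X] [CompleteSpace F] (v : X →L[𝕜] F)
    (hv : Function.Surjective v) (u : (E 𝕜 × E 𝕜) →L[𝕜] F) :
    ∃ s : (E 𝕜 × E 𝕜) →L[𝕜] X, v ∘L s = u := by
  obtain ⟨s1, h1⟩ := exists_lift v hv (u ∘L ContinuousLinearMap.inl 𝕜 (E 𝕜) (E 𝕜))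
  obtain ⟨s2, h2⟩ := exists_lift v hv (u ∘L ContinuousLinearMap.inr 𝕜 (E 𝕜) (E 𝕜))
  refine ⟨s1.coprod s2, ?_⟩
  ext ξ
  · have := congrArg (fun f : E 𝕜 →L[𝕜] F => f ξ) h1
    simpa using this
  · have := congrArg (fun f : E 𝕜 →L[𝕜] F => f ξ) h2
    simpa using this

/-- Schanuel's lemma. -/
theorem schanuel (u : X →L[𝕜] F) (v : Y →L[𝕜] F) (s : X →L[𝕜] Y) (t : Y →L[𝕜] X)
    (hs : v ∘L s = u) (ht : u ∘L t = v) : Nonempty ((ker u × Y) ≃L[𝕜] (ker v × X)) := by
  have hs' : ∀ x, v (s x) = u x := fun x => congrArg (fun f : X →L[𝕜] F => f x) hs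
  have ht' : ∀ y, u (t y) = v y := fun y => congrArg (fun f : Y →L[𝕜] F => f y) ht
  -- the second components
  let a : (ker u × Y) →L[𝕜] X := (ker u).subtypeL.coprod t
  let b : (ker v × X) →L[𝕜] Y := (ker v).subtypeL.coprod s
  have ha : ∀ p : ker u × Y, a p = (p.1 : X) + t p.2 := fun p => rfl
  have hb : ∀ p : ker v × X, b p = (p.1 : Y) + s p.2 := fun p => rfl
  let c : (ker u × Y) →L[𝕜] ker v :=
    ((ContinuousLinearMap.snd 𝕜 (ker u) Y) - s ∘L a).codRestrict (ker v) fun p => by
      have h1 : u (p.1 : X) = 0 := p.1.2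
      change v (p.2 - s (a p)) = 0
      rw [map_sub, hs', ha, map_add, h1, ht', zero_add, sub_self]
  let d : (ker v × X) →L[𝕜] ker u :=
    ((ContinuousLinearMap.snd 𝕜 (ker v) X) - t ∘L b).codRestrict (ker u) fun p => by
      have h1 : v (p.1 : Y) = 0 := p.1.2
      change u (p.2 - t (b p)) = 0
      rw [map_sub, ht', hb, map_add, h1, hs', zero_add, sub_self]
  have hc : ∀ p : ker u × Y, (c p : Y) = p.2 - s (a p) := fun p => rfl
  have hd : ∀ p : ker v × X, (d p : X) = p.2 - t (b p) := fun p => rfl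
  refine ⟨ContinuousLinearEquiv.equivOfInverse (c.prod a) (d.prod b) ?_ ?_⟩
  · intro p
    have h1 : b (c p, a p) = p.2 := by rw [hb, hc]; abel
    refine Prod.ext ?_ ?_
    · refine Subtype.ext ?_
      change ((d (c p, a p)) : X) = p.1
      rw [hd, h1]
      change a p - t p.2 = p.1
      rw [ha, add_sub_cancel_right]
    · exact h1
  · intro p
    have h1 : a (d p, b p) = p.2 := by rw [ha, hd]; abel
    refine Prod.ext ?_ ?_
    · refine Subtype.ext ?_
      change ((c (d p, b p)) : Y) = p.1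
      rw [hc, h1]
      change b p - s p.2 = p.1
      rw [hb, add_sub_cancel_right]
    · exact h1

/-- If `X` has a complemented subspace isomorphic to `W` and `W × Y ≃ W` then `X × Y ≃ X`. -/
theorem absorb (J : W →L[𝕜] X) (B : X →L[𝕜] W) (hBJ : B ∘L J = ContinuousLinearMap.id 𝕜 W)
    (e : (W × Y) ≃L[𝕜] W) : Nonempty ((X × Y) ≃L[𝕜] X) := by
  have h : ∀ w, B (J w) = w := fun w => congrArg (fun f : W →L[𝕜] W => f w) hBJ
  let f : (X × Y) →L[𝕜] X :=
    (ContinuousLinearMap.fst 𝕜 X Y) - J ∘L B ∘L (ContinuousLinearMap.fst 𝕜 X Y)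
      + J ∘L (e : (W × Y) →L[𝕜] W) ∘L
        ((B ∘L ContinuousLinearMap.fst 𝕜 X Y).prod (ContinuousLinearMap.snd 𝕜 X Y))
  have hf : ∀ p, f p = p.1 - J (B p.1) + J (e (B p.1, p.2)) := fun p => rfl
  let g1 : X →L[𝕜] X := (ContinuousLinearMap.id 𝕜 X) - J ∘L B
    + J ∘L (ContinuousLinearMap.fst 𝕜 W Y) ∘L (e.symm : W →L[𝕜] (W × Y)) ∘L B
  have hg1 : ∀ x, g1 x = x - J (B x) + J (e.symm (B x)).1 := fun x => rfl
  let g2 : X →L[𝕜] Y := (ContinuousLinearMap.snd 𝕜 W Y) ∘L (e.symm : W →L[𝕜] (W × Y)) ∘L B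
  have hg2 : ∀ x, g2 x = (e.symm (B x)).2 := fun x => rfl
  refine ⟨ContinuousLinearEquiv.equivOfInverse f (g1.prod g2) ?_ ?_⟩
  · intro p
    have h1 : B (f p) = e (B p.1, p.2) := by
      rw [hf, map_add, map_sub, h, h, sub_self, zero_add]
    refine Prod.ext ?_ ?_
    · change g1 (f p) = p.1
      rw [hg1, h1, e.symm_apply_apply, hf]
      dsimp only
      abel
    · change g2 (f p) = p.2
      rw [hg2, h1, e.symm_apply_apply]
  · intro x
    change f (g1 x, g2 x) = x
    have h1 : B (g1 x) = (e.symm (B x)).1 := by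
      rw [hg1, map_add, map_sub, h, h, sub_self, zero_add]
    rw [hf]
    dsimp only
    rw [h1, hg2, Prod.mk.eta, e.apply_symm_apply, hg1]
    abel

end

end Pool.Agent.Helper89.KB
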