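import Mathlib

/-!
# Operators on `ℓ¹`

`E 𝕜` is the space `ℓ¹` over `𝕜` (real or complex), `δ j` its unit vectors. A bounded sequence
`y` in a Banach space defines an operator `lift y` on `ℓ¹` with `lift y (δ j) = y j`.
-/

set_option autoImplicit false

open Filter Topology

namespace Pool.Agent.Helper89.KB

noncomputable section

variable {𝕜 : Type*} [RCLike 𝕜]

/-- The space `ℓ¹`. -/
abbrev E (𝕜 : Type*) [RCLike 𝕜] := lp (fun _ : ℕ => 𝕜) (1 : ENNReal)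

/-- The unit vectors of `ℓ¹`. -/
def δ (j : ℕ) : E 𝕜 := lp.single 1 j (1 : 𝕜)

theorem δ_apply (j i : ℕ) : (δ j : E 𝕜) i = if i = j then 1 else 0 := by
  unfold δ
  rw [lp.single_apply]
  simp [Pi.single_apply]

theorem norm_δ (j : ℕ) : ‖(δ j : E 𝕜)‖ = 1 := by
  unfold δ
  rw [lp.norm_single (by norm_num)]
  simp

theorem hasSum_norm (ξ : E 𝕜) : HasSum (fun i => ‖ξ i‖) ‖ξ‖ := by
  simpa using lp.hasSum_norm (p := 1) (by simp) ξ

theorem norm_apply_le (ξ : E 𝕜) (i : ℕ) : ‖ξ i‖ ≤ ‖ξ‖ := lp.norm_apply_le_norm (by simp) ξ i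

theorem sum_norm_le (ξ : E 𝕜) (s : Finset ℕ) : ∑ i ∈ s, ‖ξ i‖ ≤ ‖ξ‖ :=
  sum_le_hasSum s (fun _ _ => norm_nonneg _) (hasSum_norm ξ)

theorem single_eq (j : ℕ) (a : 𝕜) : (lp.single 1 j a : E 𝕜) = a • (δ j : E 𝕜) := by
  unfold δ
  rw [← lp.single_smul]
  simp

theorem hasSum_δ (ξ : E 𝕜) : HasSum (fun i => ξ i • (δ i : E 𝕜)) ξ := by
  have h := lp.hasSum_single (p := 1) (by simp) ξ
  simpa only [single_eq] using h

theorem tendsto_δ (ξ : E 𝕜) :
    Tendsto (fun n => ∑ i ∈ Finset.range n, ξ i • (δ i : E 𝕜)) atTop (𝓝 ξ) :=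
  (hasSum_δ ξ).tendsto_sum_nat

section Lift

variable {X : Type*} [NormedAddCommGroup X] [NormedSpace 𝕜 X]

theorem ext_δ {f g : E 𝕜 →L[𝕜] X} (h : ∀ j, f (δ j) = g (δ j)) : f = g := by
  ext ξ
  have h1 := (hasSum_δ ξ).mapL f
  have h2 := (hasSum_δ ξ).mapL g
  refine h1.unique ?_
  convert h2 using 2 with i
  simp [h]

variable [CompleteSpace X]

theorem summable_smul {y : ℕ → X} {C : ℝ} (hy : ∀ i, ‖y i‖ ≤ C) (ξ : E 𝕜) :
    Summable fun i => ξ i • y i := by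
  refine Summable.of_norm_bounded ((hasSum_norm ξ).summable.mul_right C) fun i => ?_
  rw [norm_smul]
  exact mul_le_mul_of_nonneg_left (hy i) (norm_nonneg _)

/-- The operator on `ℓ¹` defined by a bounded sequence. -/
def lift (y : ℕ → X) (C : ℝ) (hy : ∀ i, ‖y i‖ ≤ C) : E 𝕜 →L[𝕜] X :=
  LinearMap.mkContinuous
    { toFun := fun ξ => ∑' i, ξ i • y i
      map_add' := fun ξ η => by
        rw [← (summable_smul hy ξ).tsum_add (summable_smul hy η)]
        exact tsum_congr fun i => by rw [lp.coeFn_add, Pi.add_apply, add_smul]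
      map_smul' := fun c ξ => by
        rw [RingHom.id_apply, ← (summable_smul hy ξ).tsum_const_smul c]
        exact tsum_congr fun i => by rw [lp.coeFn_smul, Pi.smul_apply, smul_eq_mul, mul_smul] }
    C fun ξ => by
      have h1 := (hasSum_norm ξ).mul_left C
      refine tsum_of_norm_bounded h1 fun i => ?_
      rw [norm_smul, mul_comm]
      exact mul_le_mul_of_nonneg_right (hy i) (norm_nonneg _)

theorem hasSum_lift {y : ℕ → X} {C : ℝ} (hy : ∀ i, ‖y i‖ ≤ C) (ξ : E 𝕜) :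
    HasSum (fun i => ξ i • y i) (lift y C hy ξ) :=
  (summable_smul hy ξ).hasSum

@[simp]
theorem lift_δ {y : ℕ → X} {C : ℝ} (hy : ∀ i, ‖y i‖ ≤ C) (j : ℕ) :
    lift y C hy (δ j : E 𝕜) = y j := by
  refine (hasSum_lift hy (δ j : E 𝕜)).unique ?_
  have := hasSum_ite_eq j (y j)
  convert this using 2 with i
  rw [δ_apply]
  split_ifs with h
  · rw [h, one_smul]
  · rw [zero_smul]

theorem norm_lift_le {y : ℕ → X} {C : ℝ} (hy : ∀ i, ‖y i‖ ≤ C) (ξ : E 𝕜) :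
    ‖lift y C hy ξ‖ ≤ C * ‖ξ‖ := by
  rw [← (hasSum_lift hy ξ).tsum_eq]
  refine tsum_of_norm_bounded ((hasSum_norm ξ).mul_left C) fun i => ?_
  rw [norm_smul, mul_comm]
  exact mul_le_mul_of_nonneg_right (hy i) (norm_nonneg _)

end Lift

/-- Coordinate functionals. -/
def ev (i : ℕ) : E 𝕜 →L[𝕜] 𝕜 := lp.evalCLM 𝕜 (fun _ : ℕ => 𝕜) 1 i

@[simp]
theorem ev_apply (i : ℕ) (ξ : E 𝕜) : ev i ξ = ξ i := rfl

end

end Pool.Agent.Helper89.KB
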