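import Pool.Agent.Helper89.KB.Exist
import Pool.Agent.Helper89.KB.Hump
import Pool.Agent.Helper89.KB.Banach

/-!
# Kernels of surjections from `ℓ¹`: assembly
-/

set_option autoImplicit false

open Filter Topology
open scoped ZeroAtInfty

namespace Pool.Agent.Helper89.KB

noncomputable section

variable {𝕜 : Type*} [RCLike 𝕜]
variable {F : Type*} [NormedAddCommGroup F] [NormedSpace 𝕜 F] [CompleteSpace F]

/-- If `F` has a basis, then the kernel of every surjection `ℓ¹ → F` has a basis. -/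
theorem kernel_basis (b : SchauderBasis 𝕜 F) (u : E 𝕜 →L[𝕜] F) (hu : Function.Surjective u) :
    FiniteDimensional 𝕜 (ker u) ∨ Nonempty (SchauderBasis 𝕜 (ker u)) := by
  by_cases hfd : FiniteDimensional 𝕜 (ker u)
  · exact Or.inl hfd
  right
  obtain ⟨V, hV⟩ := exists_surjective b
  obtain ⟨s, hs⟩ := exists_lift V.u0 hV u
  obtain ⟨t, ht⟩ := exists_lift₂ u hu V.u0
  obtain ⟨e1⟩ := schanuel u V.u0 s t hs ht
  obtain ⟨J, B, hBJ⟩ := exists_complemented (ker u) u.isClosed_ker hfd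
  obtain ⟨e2⟩ := absorb (Y := E 𝕜 × E 𝕜) J B hBJ
    (((ContinuousLinearEquiv.refl 𝕜 (E 𝕜)).prodCongr pairE).trans pairE)
  exact ⟨basisMap (e1.symm.trans e2) (basisProd V.kerBasis basisE)⟩

/-- The same if only `F × ℓ¹` has a basis. -/
theorem kernel_basis_prod (b : SchauderBasis 𝕜 (F × E 𝕜)) (u : E 𝕜 →L[𝕜] F)
    (hu : Function.Surjective u) :
    FiniteDimensional 𝕜 (ker u) ∨ Nonempty (SchauderBasis 𝕜 (ker u)) := by
  let u' : E 𝕜 →L[𝕜] (F × E 𝕜) :=
    (u.prodMap (ContinuousLinearMap.id 𝕜 (E 𝕜))) ∘L ((pairE (𝕜 := 𝕜)).symm : E 𝕜 →L[𝕜] _)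
  have hu'a : ∀ ξ, u' ξ = (u (pairE.symm ξ).1, (pairE.symm ξ).2) := fun ξ => rfl
  have hu' : Function.Surjective u' := by
    rintro ⟨y, η⟩
    obtain ⟨ξ, hξ⟩ := hu y
    refine ⟨pairE (ξ, η), ?_⟩
    rw [hu'a, pairE.symm_apply_apply, hξ]
  -- the kernels are isomorphic
  let f : ker u' →L[𝕜] ker u :=
    ((ContinuousLinearMap.fst 𝕜 (E 𝕜) (E 𝕜)) ∘L ((pairE (𝕜 := 𝕜)).symm : E 𝕜 →L[𝕜] _) ∘L
      (ker u').subtypeL).codRestrict (ker u) fun ξ => by
        have h1 : u' ξ = 0 := ξ.2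
        rw [hu'a] at h1
        exact congrArg Prod.fst h1
  let g : ker u →L[𝕜] ker u' :=
    (((pairE (𝕜 := 𝕜)) : (E 𝕜 × E 𝕜) →L[𝕜] E 𝕜) ∘L (ContinuousLinearMap.inl 𝕜 (E 𝕜) (E 𝕜)) ∘L
      (ker u).subtypeL).codRestrict (ker u') fun ξ => by
        have h1 : u (ξ : E 𝕜) = 0 := ξ.2
        change u' (pairE ((ξ : E 𝕜), 0)) = 0
        rw [hu'a, pairE.symm_apply_apply, h1]
        rfl
  have hf : ∀ ξ : ker u', (f ξ : E 𝕜) = (pairE.symm (ξ : E 𝕜)).1 := fun ξ => rfl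
  have hg : ∀ ξ : ker u, (g ξ : E 𝕜) = pairE ((ξ : E 𝕜), 0) := fun ξ => rfl
  let e : ker u' ≃L[𝕜] ker u := ContinuousLinearEquiv.equivOfInverse f g
    (fun ξ => by
      refine Subtype.ext ?_
      rw [hg, hf]
      have h1 : u' ξ = 0 := ξ.2
      rw [hu'a] at h1
      have h2 : (pairE.symm (ξ : E 𝕜)).2 = 0 := congrArg Prod.snd h1
      have h3 : ((pairE.symm (ξ : E 𝕜)).1, (0 : E 𝕜)) = pairE.symm (ξ : E 𝕜) := by
        rw [← h2]
      rw [h3, pairE.apply_symm_apply])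
    (fun ξ => by
      refine Subtype.ext ?_
      rw [hf, hg, pairE.symm_apply_apply])
  rcases kernel_basis b u' hu' with h | h
  · exact Or.inl (LinearEquiv.finiteDimensional e.toLinearEquiv)
  · obtain ⟨c⟩ := h
    exact Or.inr ⟨basisMap e c⟩

/-- `𝕜 × ℓ¹ ≃ ℓ¹` -/
def shiftE : (𝕜 × E 𝕜) ≃L[𝕜] E 𝕜 := by
  let S : E 𝕜 →L[𝕜] E 𝕜 := lift (fun i => δ (i + 1)) 1 fun i => (norm_δ _).le
  let B : E 𝕜 →L[𝕜] E 𝕜 := lift (fun i => if i = 0 then 0 else δ (i - 1)) 1 fun i => by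
    split_ifs
    · simp
    · rw [norm_δ]
  let D : 𝕜 →L[𝕜] E 𝕜 := (ContinuousLinearMap.id 𝕜 𝕜).smulRight (δ 0 : E 𝕜)
  have hBS : B ∘L S = ContinuousLinearMap.id 𝕜 _ := ext_δ fun i => by simp [B, S]
  have hBD : B ∘L D = 0 := by
    ext
    simp [B, D]
  have hevS : (ev 0 : E 𝕜 →L[𝕜] 𝕜) ∘L S = 0 := ext_δ fun i => by simp [S, δ_apply]
  have hevD : (ev 0 : E 𝕜 →L[𝕜] 𝕜) ∘L D = ContinuousLinearMap.id 𝕜 _ := by
    ext
    simp [D, δ_apply]
  have hsum : D ∘L (ev 0 : E 𝕜 →L[𝕜] 𝕜) + S ∘L B = ContinuousLinearMap.id 𝕜 _ := ext_δ fun i => by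
    rcases Nat.eq_zero_or_pos i with h | h
    · subst h
      simp [B, S, D, δ_apply]
    · have h1 : i - 1 + 1 = i := by omega
      have h2 : i ≠ 0 := by omega
      simp [B, S, D, δ_apply, h2, h2.symm, h1]
  refine ContinuousLinearEquiv.equivOfInverse (D.coprod S)
    ((ev 0 : E 𝕜 →L[𝕜] 𝕜).prod B) ?_ ?_
  · rintro ⟨c, ξ⟩
    have e1 := congrArg (fun f : E 𝕜 →L[𝕜] E 𝕜 => f ξ) hBS
    have e2 := congrArg (fun f : 𝕜 →L[𝕜] E 𝕜 => f c) hBD
    have e3 := congrArg (fun f : E 𝕜 →L[𝕜] 𝕜 => f ξ) hevS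
    have e4 := congrArg (fun f : 𝕜 →L[𝕜] 𝕜 => f c) hevD
    simp only [ContinuousLinearMap.comp_apply, ContinuousLinearMap.id_apply, zero_apply]
      at e1 e2 e3 e4
    simp only [ContinuousLinearMap.coprod_apply, ContinuousLinearMap.prod_apply, map_add, e1,
      e2, e3, e4, Prod.mk_add_mk, add_zero, zero_add]
  · intro ξ
    have e := congrArg (fun f : E 𝕜 →L[𝕜] E 𝕜 => f ξ) hsum
    simpa using e

/-- Finite dimensional spaces are absorbed by `ℓ¹`. -/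
theorem fd_absorb (n : ℕ) : Nonempty (((Fin n → 𝕜) × E 𝕜) ≃L[𝕜] E 𝕜) := by
  induction n with
  | zero =>
    refine ⟨ContinuousLinearEquiv.equivOfInverse (ContinuousLinearMap.snd 𝕜 (Fin 0 → 𝕜) (E 𝕜))
      (ContinuousLinearMap.inr 𝕜 (Fin 0 → 𝕜) (E 𝕜)) ?_ ?_⟩
    · intro p
      refine Prod.ext (Subsingleton.elim _ _) rfl
    · intro ξ
      rfl
  | succ n ih =>
    obtain ⟨e⟩ := ih
    have e0 : (Fin (n + 1) → 𝕜) ≃L[𝕜] (𝕜 × (Fin n → 𝕜)) :=
      ContinuousLinearEquiv.ofFinrankEq (by simp [add_comm])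
    exact ⟨(e0.prodCongr (ContinuousLinearEquiv.refl 𝕜 (E 𝕜))).trans
      ((ContinuousLinearEquiv.prodAssoc 𝕜 𝕜 (Fin n → 𝕜) (E 𝕜)).trans
        (((ContinuousLinearEquiv.refl 𝕜 𝕜).prodCongr e).trans shiftE))⟩

omit [CompleteSpace F] in
theorem fd_basis [FiniteDimensional 𝕜 F] : Nonempty (SchauderBasis 𝕜 (F × E 𝕜)) := by
  obtain ⟨e⟩ := fd_absorb (𝕜 := 𝕜) (Module.finrank 𝕜 F)
  have e0 : F ≃L[𝕜] (Fin (Module.finrank 𝕜 F) → 𝕜) :=
    ContinuousLinearEquiv.ofFinrankEq (by simp)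
  exact ⟨basisMap ((e0.prodCongr (ContinuousLinearEquiv.refl 𝕜 (E 𝕜))).trans e).symm basisE⟩

/-- unit vector basis of `ℓ^p` -/
theorem isBasis_lp (p : ENNReal) [Fact (1 ≤ p)] (hp : p ≠ ⊤) :
    IsBasis 𝕜 (fun i => (lp.single p i (1 : 𝕜) : lp (fun _ : ℕ => 𝕜) p)) := by
  have hs : ∀ (i : ℕ) (a : 𝕜), (lp.single p i a : lp (fun _ : ℕ => 𝕜) p)
      = a • (lp.single p i (1 : 𝕜) : lp (fun _ : ℕ => 𝕜) p) := by
    intro i a
    rw [← lp.single_smul]
    simp
  intro x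
  refine ⟨fun i => x i, ?_, ?_⟩
  · have h := (lp.hasSum_single (E := fun _ : ℕ => 𝕜) hp x).tendsto_sum_nat
    simpa only [← hs] using h
  · intro a ha
    funext j
    have h1 := ((lp.evalCLM 𝕜 (fun _ : ℕ => 𝕜) p j).continuous.tendsto x).comp ha
    have h2 : Tendsto (fun _ : ℕ => a j) atTop (𝓝 (x j)) := by
      refine Filter.Tendsto.congr' ?_ h1
      filter_upwards [eventually_gt_atTop j] with n hn
      rw [Function.comp_apply, map_sum, Finset.sum_eq_single j]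
      · rw [map_smul]
        change a j • (lp.single p j (1 : 𝕜) : lp (fun _ : ℕ => 𝕜) p) j = a j
        rw [lp.single_apply_self, smul_eq_mul, mul_one]
      · intro i _ hij
        rw [map_smul]
        change a i • (lp.single p i (1 : 𝕜) : lp (fun _ : ℕ => 𝕜) p) j = 0
        rw [lp.single_apply_ne _ _ _ (Ne.symm hij), smul_zero]
      · intro h
        exact absurd (Finset.mem_range.2 hn) h
    exact tendsto_nhds_unique tendsto_const_nhds h2

/-- unit vectors of `c₀` -/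
def c0unit (i : ℕ) : C₀(ℕ, 𝕜) where
  toFun := Pi.single i 1
  continuous_toFun := continuous_of_discreteTopology
  zero_at_infty' := by
    rw [cocompact_eq_cofinite, Nat.cofinite_eq_atTop]
    refine tendsto_const_nhds.congr' ?_
    filter_upwards [eventually_gt_atTop i] with n hn
    rw [Pi.single_eq_of_ne (by omega)]

theorem c0unit_apply (i j : ℕ) : (c0unit i : C₀(ℕ, 𝕜)) j = if j = i then 1 else 0 := by
  change (Pi.single i (1 : 𝕜) : ℕ → 𝕜) j = _
  rw [Pi.single_apply]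

theorem isBasis_c0 : IsBasis 𝕜 (fun i => (c0unit i : C₀(ℕ, 𝕜))) := by
  have hsum : ∀ (a : ℕ → 𝕜) (n j : ℕ), (∑ i ∈ Finset.range n, a i • (c0unit i : C₀(ℕ, 𝕜))) j
      = if j < n then a j else 0 := by
    intro a n j
    induction n with
    | zero => simp
    | succ n ih =>
      rw [Finset.sum_range_succ, ZeroAtInftyContinuousMap.add_apply, ih,
        ZeroAtInftyContinuousMap.smul_apply, c0unit_apply]
      rcases lt_trichotomy j n with h | h | h
      · rw [if_pos h, if_neg (by omega), if_pos (by omega)]; simp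
      · rw [if_neg (by omega), if_pos h, if_pos (by omega), h]; simp
      · rw [if_neg (by omega), if_neg (by omega), if_neg (by omega)]; simp
  intro x
  refine ⟨fun i => x i, ?_, ?_⟩
  · change Tendsto (fun n => ∑ i ∈ Finset.range n, x i • (c0unit i : C₀(ℕ, 𝕜))) atTop (𝓝 x)
    rw [ZeroAtInftyContinuousMap.tendsto_iff_tendstoUniformly, Metric.tendstoUniformly_iff]
    intro ε hε
    have h1 := x.zero_at_infty'
    rw [cocompact_eq_cofinite, Nat.cofinite_eq_atTop, Metric.tendsto_atTop] at h1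
    obtain ⟨N, hN⟩ := h1 ε hε
    filter_upwards [eventually_ge_atTop N] with n hn j
    rw [hsum]
    split_ifs with h
    · rw [dist_self]; exact hε
    · exact hN j (by omega)
  · intro a ha
    rw [ZeroAtInftyContinuousMap.tendsto_iff_tendstoUniformly] at ha
    funext j
    have h1 := ha.tendsto_at j
    have h2 : Tendsto (fun _ : ℕ => a j) atTop (𝓝 (x j)) := by
      refine Filter.Tendsto.congr' ?_ h1
      filter_upwards [eventually_gt_atTop j] with n hn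
      rw [hsum, if_pos hn]
    exact tendsto_nhds_unique tendsto_const_nhds h2

end

end Pool.Agent.Helper89.KB
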