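import Pool.Agent.Helper89.KB.Forest

/-!
# The kernel of a tree surjection has a basis
-/

set_option autoImplicit false

open Filter Topology

namespace Pool.Agent.Helper89.KB

noncomputable section

variable {𝕜 : Type*} [RCLike 𝕜]

/-- Convergence along initial segments. -/
theorem hasSum_cond {X : Type*} [AddCommMonoid X] [TopologicalSpace X] (f : ℕ → X) (x : X) :
    HasSum f x (SummationFilter.conditional ℕ) ↔
      Tendsto (fun n => ∑ i ∈ Finset.range n, f i) atTop (𝓝 x) := by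
  rw [HasSum, SummationFilter.conditional_filter_eq_map_range, tendsto_map'_iff]
  rfl

theorem single_ite (inst : DecidableEq ℕ) (i j : ℕ) :
    (@Pi.single ℕ (fun _ => 𝕜) _ inst j (1 : 𝕜)) i
      = @ite 𝕜 (i = j) (instDecidableEqNat i j) 1 0 := by
  have : inst = instDecidableEqNat := Subsingleton.elim _ _
  subst this
  exact Pi.single_apply _ _ _

theorem ortho' {X : Type*} [NormedAddCommGroup X] [NormedSpace 𝕜 X] (b : SchauderBasis 𝕜 X)
    (i j : ℕ) : b.coord i (b j) = if i = j then 1 else 0 := by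
  rw [b.ortho, single_ite]

/-- The kernel of a continuous linear map. -/
abbrev ker {X Y : Type*} [NormedAddCommGroup X] [NormedSpace 𝕜 X] [NormedAddCommGroup Y]
    [NormedSpace 𝕜 Y] (u : X →L[𝕜] Y) : Submodule 𝕜 X := LinearMap.ker (u : X →ₗ[𝕜] Y)

variable {F : Type*} [NormedAddCommGroup F] [NormedSpace 𝕜 F]

/-- A forest of vectors adapted to a basis of `F`. -/
structure VForest (b : SchauderBasis 𝕜 F) extends Forest where
  /-- the vector at a node -/
  x : ℕ → F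
  norm_x : ∀ j, ‖x j‖ ≤ 1
  proj_x : ∀ j, b.proj (lev j + 1) (x j) = x j
  x_par : ∀ j, lev j ≠ 0 → x (par j) = b.proj (lev j) (x j)

namespace VForest

variable {b : SchauderBasis 𝕜 F} (V : VForest b)

theorem coord_proj (n i : ℕ) (y : F) : b.coord i (b.proj n y) = if i < n then b.coord i y else 0 := by
  rw [SchauderBasis.proj_apply, map_sum]
  simp only [map_smul, ortho', smul_eq_mul, mul_ite, mul_one, mul_zero]
  rw [Finset.sum_ite_eq]
  simp

theorem coord_high {j m : ℕ} (h : V.lev j < m) : b.coord m (V.x j) = 0 := by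
  rw [← V.proj_x, coord_proj, if_neg (by omega)]

theorem coord_anc {j m : ℕ} (h : m ≤ V.lev j) : b.coord m (V.x (V.anc j m)) = b.coord m (V.x j) := by
  obtain ⟨k, hk⟩ : ∃ k, V.lev j = m + k := ⟨V.lev j - m, by omega⟩
  induction k generalizing j with
  | zero =>
    have : V.anc j m = j := by
      have := V.anc_self j
      rwa [hk] at this
    rw [this]
  | succ k ih =>
    have h1 := V.lev_par j (by omega)
    have h2 := ih (j := V.par j) (by omega) (by omega)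
    rw [V.anc_par (by omega)] at h2
    rw [h2, V.x_par j (by omega), coord_proj, if_pos (by omega)]

theorem b_ne (n : ℕ) : b n ≠ 0 := by
  intro h
  have := b.ortho n n
  rw [show b.basis n = 0 from h, map_zero] at this
  simp at this

theorem norm_b_pos (n : ℕ) : 0 < ‖b n‖ := norm_pos_iff.2 (b_ne n)

/-- normalised basis vectors -/
def g (b : SchauderBasis 𝕜 F) (n : ℕ) : F := ((‖b n‖⁻¹ : ℝ) : 𝕜) • b n

theorem norm_g (n : ℕ) : ‖g b n‖ ≤ 1 := by
  unfold g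
  rw [norm_smul, RCLike.norm_ofReal, abs_of_pos (inv_pos.2 (norm_b_pos n)),
    inv_mul_cancel₀ (norm_b_pos n).ne']

/-- the coefficient `κ` -/
def kap (j : ℕ) : 𝕜 := b.coord (V.lev j) (V.x j) * (‖b (V.lev j)‖ : ℝ)

theorem proj_succ (n : ℕ) (y : F) : b.proj (n + 1) y = b.proj n y + b.coord n y • b n := by
  rw [SchauderBasis.proj_apply, SchauderBasis.proj_apply, Finset.sum_range_succ]

theorem x_eq (j : ℕ) : V.x j = b.proj (V.lev j) (V.x j) + b.coord (V.lev j) (V.x j) • b (V.lev j) := by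
  rw [← proj_succ, V.proj_x]

theorem norm_proj_x (j : ℕ) : ‖b.proj (V.lev j) (V.x j)‖ ≤ 1 := by
  by_cases h : V.lev j = 0
  · rw [h]
    simp
  · rw [← V.x_par j h]
    exact V.norm_x _

theorem norm_kap (j : ℕ) : ‖V.kap j‖ ≤ 2 := by
  have h1 : ‖V.kap j‖ = ‖b.coord (V.lev j) (V.x j) • b (V.lev j)‖ := by
    unfold kap
    rw [norm_mul, norm_smul, RCLike.norm_ofReal, abs_of_pos (norm_b_pos _)]
  rw [h1]
  have h2 : b.coord (V.lev j) (V.x j) • b (V.lev j) = V.x j - b.proj (V.lev j) (V.x j) := by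
    conv_rhs => rw [V.x_eq j]
    have := V.x_eq j
    rw [← this]
    rw [eq_sub_iff_add_eq, add_comm]
    exact this.symm
  rw [h2]
  calc _ ≤ ‖V.x j‖ + ‖b.proj (V.lev j) (V.x j)‖ := norm_sub_le _ _
    _ ≤ 1 + 1 := add_le_add (V.norm_x j) (V.norm_proj_x j)
    _ = 2 := by norm_num

theorem kap_smul_g (j : ℕ) : V.kap j • g b (V.lev j) = b.coord (V.lev j) (V.x j) • b (V.lev j) := by
  unfold kap g
  rw [smul_smul]
  congr 1
  rw [mul_assoc, ← RCLike.ofReal_mul, mul_inv_cancel₀ (norm_b_pos _).ne']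
  simp

/-- the basis of the kernel -/
def z (j : ℕ) : E 𝕜 × E 𝕜 := (δ j - V.R 𝕜 (δ j), -(V.kap j • δ (V.lev j)))

theorem norm_z (j : ℕ) : ‖V.z j‖ ≤ 2 := by
  rw [z, Prod.norm_mk, max_le_iff]
  constructor
  · calc ‖(δ j : E 𝕜) - V.R 𝕜 (δ j)‖ ≤ ‖(δ j : E 𝕜)‖ + ‖V.R 𝕜 (δ j)‖ := norm_sub_le _ _
      _ ≤ 1 + 1 := add_le_add (norm_δ j).le ((V.norm_R_le _).trans (norm_δ j).le)
      _ = 2 := by norm_num
  · rw [norm_neg, norm_smul, norm_δ, mul_one]
    exact V.norm_kap j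

/-- the operator sending `δ j` to `z j` -/
def Z : E 𝕜 →L[𝕜] E 𝕜 × E 𝕜 := lift V.z 2 V.norm_z

theorem Z_fst (ξ : E 𝕜) : (V.Z ξ).1 = ξ - V.R 𝕜 ξ := by
  have : (ContinuousLinearMap.fst 𝕜 (E 𝕜) (E 𝕜)) ∘L V.Z = ContinuousLinearMap.id 𝕜 _ - V.R 𝕜 := by
    refine ext_δ fun i => ?_
    have h1 : V.Z (δ i) = V.z i := lift_δ _ _
    rw [ContinuousLinearMap.comp_apply, h1, sub_apply]
    rfl
  exact congrArg (fun f : E 𝕜 →L[𝕜] E 𝕜 => f ξ) this

variable [CompleteSpace F]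

/-- the first part of the surjection -/
def u1 : E 𝕜 →L[𝕜] F := lift V.x 1 V.norm_x

/-- the second part of the surjection -/
def u2 (b : SchauderBasis 𝕜 F) : E 𝕜 →L[𝕜] F := lift (g b) 1 norm_g

/-- The tree surjection. -/
def u0 : (E 𝕜 × E 𝕜) →L[𝕜] F := V.u1.coprod (u2 b)

theorem u0_apply (v : E 𝕜 × E 𝕜) : V.u0 v = V.u1 v.1 + u2 b v.2 := by
  simp [u0]

theorem u0_z (j : ℕ) : V.u0 (V.z j) = 0 := by
  rw [u0_apply]
  simp only [z, map_sub, map_neg, map_smul]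
  rw [V.R_δ]
  have h1 : V.u1 (δ j) = V.x j := lift_δ _ _
  have h2 : u2 b (δ (V.lev j)) = g b (V.lev j) := lift_δ _ _
  rw [h1, h2, V.kap_smul_g]
  have h3 : V.u1 (if V.lev j = 0 then (0 : E 𝕜) else δ (V.par j)) = b.proj (V.lev j) (V.x j) := by
    split_ifs with h
    · rw [h]; simp
    · have h4 : V.u1 (δ (V.par j)) = V.x (V.par j) := lift_δ _ _
      rw [h4, V.x_par j h]
  rw [h3]
  have := V.x_eq j
  rw [← sub_eq_add_neg, sub_sub, ← this, sub_self]

theorem coord_u2 (m : ℕ) (η : E 𝕜) : b.coord m (u2 b η) = η m * ((‖b m‖⁻¹ : ℝ) : 𝕜) := by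
  have : (b.coord m) ∘L (u2 b) = ((‖b m‖⁻¹ : ℝ) : 𝕜) • (ev m : E 𝕜 →L[𝕜] 𝕜) := by
    refine ext_δ fun i => ?_
    have h1 : u2 b (δ i) = g b i := lift_δ _ _
    rw [ContinuousLinearMap.comp_apply, h1, smul_apply, ev_apply, δ_apply]
    unfold g
    rw [map_smul, ortho']
    split_ifs with h
    · rw [h]
    · simp
  have h2 := congrArg (fun f : E 𝕜 →L[𝕜] 𝕜 => f η) this
  simp only [ContinuousLinearMap.comp_apply, smul_apply, ev_apply, smul_eq_mul] at h2
  rw [h2, mul_comm]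

theorem Z_snd_T (m : ℕ) (ξ : E 𝕜) :
    (V.Z (V.T 𝕜 m ξ)).2 = -((b.coord m (V.u1 ξ) * (‖b m‖ : ℝ)) • (δ m : E 𝕜)) := by
  have : (ContinuousLinearMap.snd 𝕜 (E 𝕜) (E 𝕜)) ∘L V.Z ∘L (V.T 𝕜 m)
      = -(((‖b m‖ : ℝ) : 𝕜) • ((b.coord m) ∘L V.u1).smulRight (δ m : E 𝕜)) := by
    refine ext_δ fun i => ?_
    rw [ContinuousLinearMap.comp_apply, ContinuousLinearMap.comp_apply, V.T_δ,
      neg_apply, smul_apply, ContinuousLinearMap.smulRight_apply,
      ContinuousLinearMap.comp_apply]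
    have h1 : V.u1 (δ i) = V.x i := lift_δ _ _
    rw [h1]
    split_ifs with h
    · have h2 : V.Z (δ (V.anc i m)) = V.z (V.anc i m) := lift_δ _ _
      rw [h2]
      simp only [z, ContinuousLinearMap.coe_snd', kap]
      rw [V.lev_anc h, V.coord_anc h, smul_smul, mul_comm]
    · rw [V.coord_high (by omega)]
      simp
  have h2 := congrArg (fun f : E 𝕜 →L[𝕜] E 𝕜 => f ξ) this
  simp only [ContinuousLinearMap.comp_apply, neg_apply, smul_apply,
    ContinuousLinearMap.smulRight_apply, ContinuousLinearMap.coe_snd'] at h2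
  rw [h2, smul_smul, mul_comm]

theorem Z_snd_T_ker {ξ η : E 𝕜} (h : V.u0 (ξ, η) = 0) (m : ℕ) :
    (V.Z (V.T 𝕜 m ξ)).2 = η m • (δ m : E 𝕜) := by
  rw [V.Z_snd_T]
  rw [u0_apply] at h
  have h1 := congrArg (b.coord m) h
  rw [map_add, map_zero, coord_u2] at h1
  have h2 : b.coord m (V.u1 ξ) = -(η m * ((‖b m‖⁻¹ : ℝ) : 𝕜)) := eq_neg_of_add_eq_zero_left h1
  rw [h2, ← neg_smul]
  congr 1
  rw [neg_mul, neg_neg, mul_assoc, ← RCLike.ofReal_mul, inv_mul_cancel₀ (norm_b_pos m).ne']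
  simp

/-- partial sums over full levels -/
theorem sum_levels {ξ η : E 𝕜} (h : V.u0 (ξ, η) = 0) (n : ℕ) :
    ∑ m ∈ Finset.range n, V.Z (V.T 𝕜 m ξ)
      = (∑ i ∈ Finset.range (V.N n), ξ i • (δ i : E 𝕜) + V.R 𝕜 (V.T 𝕜 n ξ),
          ∑ m ∈ Finset.range n, η m • (δ m : E 𝕜)) := by
  induction n with
  | zero =>
    simp [V.N_zero, V.R_T_zero]
    rfl
  | succ n ih =>
    rw [Finset.sum_range_succ, ih]
    refine Prod.ext ?_ ?_
    · rw [Prod.fst_add, V.Z_fst, V.R_T_succ, ← V.sum_Q, ← V.sum_Q, Finset.sum_range_succ]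
      dsimp only
      abel
    · rw [Prod.snd_add, V.Z_snd_T_ker h, Finset.sum_range_succ]

omit [CompleteSpace F] in
theorem Z_T_eq (m : ℕ) (ξ : E 𝕜) : V.Z (V.T 𝕜 m ξ)
    = ∑ j ∈ Finset.Ico (V.N m) (V.N (m + 1)), (V.T 𝕜 (V.lev j) ξ) j • V.z j := by
  conv_lhs => rw [V.T_eq_sum, map_sum]
  refine Finset.sum_congr rfl fun j hj => ?_
  rw [map_smul, show V.Z (δ j) = V.z j from lift_δ _ _]
  rw [Finset.mem_Ico, ← V.lev_eq_iff] at hj
  rw [hj]

omit [CompleteSpace F] in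
theorem sum_full (n : ℕ) (ξ : E 𝕜) : ∑ j ∈ Finset.range (V.N n), (V.T 𝕜 (V.lev j) ξ) j • V.z j
    = ∑ m ∈ Finset.range n, V.Z (V.T 𝕜 m ξ) := by
  induction n with
  | zero => simp [V.N_zero]
  | succ n ih =>
    rw [Finset.sum_range_succ, ← ih, V.Z_T_eq, Finset.sum_range_add_sum_Ico _ (V.N_lt n).le]

theorem expansion {ξ η : E 𝕜} (h : V.u0 (ξ, η) = 0) :
    Tendsto (fun J => ∑ j ∈ Finset.range J, (V.T 𝕜 (V.lev j) ξ) j • V.z j) atTop (𝓝 (ξ, η)) := by
  -- full levels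
  have h1 : Tendsto (fun n => ∑ j ∈ Finset.range (V.N n), (V.T 𝕜 (V.lev j) ξ) j • V.z j) atTop
      (𝓝 (ξ, η)) := by
    simp only [V.sum_full, V.sum_levels h]
    refine Tendsto.prodMk_nhds ?_ (tendsto_δ η)
    have h2 : Tendsto (fun n => V.R 𝕜 (V.T 𝕜 n ξ)) atTop (𝓝 0) :=
      squeeze_zero_norm (fun n => V.norm_R_le _) (V.tendsto_T ξ)
    have h3 := ((tendsto_δ ξ).comp V.tendsto_N).add h2
    rw [add_zero] at h3
    exact h3
  have h2 := h1.comp V.tendsto_lev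
  -- the incomplete level
  have h3 : Tendsto (fun J => ∑ j ∈ Finset.Ico (V.N (V.lev J)) J, (V.T 𝕜 (V.lev j) ξ) j • V.z j)
      atTop (𝓝 0) := by
    have h4 := ((V.tendsto_T ξ).comp V.tendsto_lev).const_mul 2
    rw [mul_zero] at h4
    refine squeeze_zero_norm (fun J => ?_) h4
    calc ‖∑ j ∈ Finset.Ico (V.N (V.lev J)) J, (V.T 𝕜 (V.lev j) ξ) j • V.z j‖
        ≤ ∑ j ∈ Finset.Ico (V.N (V.lev J)) J, ‖(V.T 𝕜 (V.lev J) ξ) j‖ * 2 := by
          refine norm_sum_le_of_le _ fun j hj => ?_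
          rw [Finset.mem_Ico] at hj
          have hl : V.lev j = V.lev J := by
            rw [V.lev_eq_iff]
            exact ⟨hj.1, hj.2.trans (V.lt_lev J)⟩
          rw [norm_smul, hl]
          exact mul_le_mul_of_nonneg_left (V.norm_z j) (norm_nonneg _)
      _ = 2 * ∑ j ∈ Finset.Ico (V.N (V.lev J)) J, ‖(V.T 𝕜 (V.lev J) ξ) j‖ := by
          rw [← Finset.sum_mul, mul_comm]
      _ ≤ 2 * ‖V.T 𝕜 (V.lev J) ξ‖ := by
          exact mul_le_mul_of_nonneg_left (sum_norm_le _ _) (by norm_num)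
  have h4 := h2.add h3
  rw [add_zero] at h4
  refine h4.congr fun J => ?_
  exact Finset.sum_range_add_sum_Ico _ (V.lev_le J)

/-- The kernel of the tree surjection has a Schauder basis. -/
def kerBasis : SchauderBasis 𝕜 (ker V.u0) where
  basis j := ⟨V.z j, V.u0_z j⟩
  coord j := (ev j ∘L V.T 𝕜 (V.lev j) ∘L ContinuousLinearMap.fst 𝕜 (E 𝕜) (E 𝕜)) ∘L
    (ker V.u0).subtypeL
  ortho i j := by
    simp only [ContinuousLinearMap.comp_apply, Submodule.subtypeL_apply, z,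
      ContinuousLinearMap.coe_fst', ev_apply]
    rw [V.T_sub_T_R, V.Q_δ, single_ite]
    by_cases h : V.lev j = V.lev i
    · rw [if_pos h, δ_apply]
    · rw [if_neg h, if_neg (by rintro rfl; exact h rfl)]
      rfl
  expansion := by
    rintro ⟨⟨ξ, η⟩, h⟩
    rw [hasSum_cond]
    rw [tendsto_subtype_rng]
    have := V.expansion (ξ := ξ) (η := η) h
    simpa using this

end VForest

end

end Pool.Agent.Helper89.KB
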